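import Pool.Agent.Q227.OR.Sound2

/-!
# Terms without evidence are correct histories
-/

set_option autoImplicit false

namespace Pool.Agent.Q227.OR

open Pool.Agent.Helper273.Machine (MI mstep st0)
open Function (update)

variable {Q : Type} {N : ℕ} {ins : Q → MI (N + 3) Q} {q0 qf : Q}

theorem E2_ka : E2 (St ins q0 qf) .ka := ⟨.ka, .ka, .root .kk, .root .kk, .root .kk⟩

theorem E2_de : E2 (St ins q0 qf) .de := ⟨.ka, .ka, .root .dk, .root .kk, .root .kk⟩

theorem E2_of_de {t : T Q N} (h : St ins q0 qf t .de) : E2 (St ins q0 qf) t :=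
  ⟨.de, .ka, h, .root .dk, .root .kk⟩

theorem C3_al (t : T Q N) : C3 (St ins q0 qf) (.al 0 t) :=
  ⟨.al 1 t, .al 2 t, .root (.alc 0 t), .root (.alc 1 t), .root (.alc 2 t)⟩

theorem C2_be (t : T Q N) : C2 (St ins q0 qf) (.be 0 t) :=
  ⟨.be 1 t, .root (.bec 0 t), .root (.bec 1 t)⟩

theorem C3_al' (i : Fin 3) (t : T Q N) : C3 (St ins q0 qf) (.al i t) := by
  refine ⟨.al (i + 1) t, .al (i + 1 + 1) t, .root (.alc _ t), .root (.alc _ t), ?_⟩
  have h : i + 1 + 1 + 1 = i := by revert i; decide
  have := St.root (Rt.alc (ins := ins) (q0 := q0) (qf := qf) (i + 1 + 1) t)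
  rwa [h] at this

theorem C2_be' (i : Fin 2) (t : T Q N) : C2 (St ins q0 qf) (.be i t) := by
  refine ⟨.be (i + 1) t, .root (.bec _ t), ?_⟩
  have h : i + 1 + 1 = i := by revert i; decide
  have := St.root (Rt.bec (ins := ins) (q0 := q0) (qf := qf) (i + 1) t)
  rwa [h] at this

theorem NN_true (k : ℕ) : ∀ (b : Bool) (a : ℕ), a ≠ k →
    NN (St ins q0 qf) k b (tm ([] : List (Cfg Q N)) (hb b a)) := by
  induction k with
  | zero =>
    intro b a ha
    obtain ⟨a, rfl⟩ := Nat.exists_eq_succ_of_ne_zero ha
    cases b with
    | true => exact ⟨.al 0 (num a), .root (.bes _), C3_al _⟩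
    | false => exact ⟨.be 0 (num a), .root (.als _), C2_be _⟩
  | succ k ih =>
    intro b a ha
    cases a with
    | zero =>
      left
      cases b with
      | true => exact E2_of_de (.root .bez)
      | false => exact E2_of_de (.root .alz)
    | succ a =>
      right
      have := ih (!b) a (by omega)
      cases b with
      | true => exact ⟨.al 0 (num a), .root (.bes _), C3_al _, this⟩
      | false => exact ⟨.be 0 (num a), .root (.als _), C2_be _, this⟩

theorem dich {n : ℕ} (t : T Q N) (h : ¬ Ev (St ins q0 qf) n t) :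
    (∃ k, t = num k) ∨ ∃ C : List (Cfg Q N), (C = [] ∨ VH ins q0 n C) ∧ t = tm C .e := by
  have hde : ∀ {t : T Q N}, St ins q0 qf t .de → Ev (St ins q0 qf) n t := fun h =>
    Or.inl (E2_of_de h)
  induction t with
  | z => exact Or.inl ⟨0, rfl⟩
  | s t ih =>
    have h1 : ¬ Ev (St ins q0 qf) n t := fun h' => h (Ev.map _ (fun _ _ => St.s) h')
    rcases ih h1 with ⟨k, rfl⟩ | ⟨C, _, rfl⟩
    · exact Or.inl ⟨k + 1, rfl⟩
    · exfalso
      refine h (hde (.root (.sbad _ ?_)))
      cases C with
      | nil => exact Or.inl rfl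
      | cons x C => exact Or.inr ⟨_, _, _, rfl⟩
  | e => exact Or.inr ⟨[], Or.inl rfl, rfl⟩
  | c q X w ihX ihw =>
    right
    have hX : ∀ j, ∃ k, X j = num k := by
      intro j
      have h1 : ¬ Ev (St ins q0 qf) n (X j) := by
        intro h'
        have := Ev.map (r' := St ins q0 qf) (fun x => T.c q (update X j x) w)
          (fun a b hab => ?_) h'
        · simp only [Function.update_eq_self] at this
          exact h this
        · have h2 := St.cr (ins := ins) (q0 := q0) (qf := qf) (q := q) (X := update X j a)
            (w := w) j (x' := b) (by rw [Function.update_self]; exact hab)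
          rwa [Function.update_idem] at h2
      rcases ihX j h1 with h2 | ⟨C, _, hC⟩
      · exact h2
      · exfalso
        refine h (hde (.root (.regbad _ _ _ j ?_)))
        rw [hC]
        cases C with
        | nil => exact Or.inl rfl
        | cons x C => exact Or.inr ⟨_, _, _, rfl⟩
    choose x hx using hX
    have hX' : X = fun j => num (x j) := funext hx
    have h2 : ¬ Ev (St ins q0 qf) n w := fun h' =>
      h (Ev.map (fun w => T.c q X w) (fun _ _ => St.cw) h')
    rcases ihw h2 with ⟨k, rfl⟩ | ⟨C, hC, rfl⟩
    · exfalso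
      exact h (hde (.root (.tlbad _ _ _ (isN_num k))))
    · refine ⟨(q, x) :: C, Or.inr ?_, by rw [hX']; rfl⟩
      cases C with
      | nil =>
        have hq : q = q0 := by
          by_contra hq
          exact h (hde (.root (.inibad _ _ hq)))
        subst hq
        have hz : ∀ j : Fin (N + 3), 2 ≤ (j : ℕ) → x j = 0 := by
          intro j hj
          by_contra h0
          obtain ⟨v, hv⟩ := Nat.exists_eq_succ_of_ne_zero h0
          refine h (hde (.root (.inibad' _ j (num v) hj ?_)))
          rw [hx, hv]
          rfl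
        have h0 : x 0 = n := by
          by_contra h0
          refine h (Or.inr (Or.inr (Or.inr (Or.inr ?_))))
          refine ⟨.be 0 (X 0), .root (.ini X), C2_be _, ?_⟩
          have := NN_true (ins := ins) (q0 := q) (qf := qf) n true (x 0) h0
          rw [hx]
          exact this
        have : x = st0 (N + 3) n (x 1) := by
          funext j
          unfold st0
          split_ifs with h1 h2
          · have : j = 0 := Fin.ext (by simpa using h1)
            rw [this, h0]
          · have : j = 1 := Fin.ext (by simpa using h2)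
            rw [this]
          · exact hz j (by omega)
        rw [this]
        exact VH.init _
      | cons y C =>
        rcases hC with hC | hC
        · cases hC
        have hT := TS_num' (ins := ins) y.1 y.2
        have hq : q = (mstep ins y).1 := by
          by_contra hq
          exact h (hde (.root (.viol _ _ _ _ _ _ _ hT hq)))
        have hxx : x = (mstep ins y).2 := by
          funext j
          by_contra hne
          apply h
          refine Or.inr (Or.inr (Or.inr (Or.inl ?_)))
          have hA : St ins q0 qf (T.c q X (tm (y :: C) Hd.e))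
              (T.A (num (x j)) (num ((mstep ins y).2 j))) := by
            have := St.root (Rt.extr (ins := ins) (q0 := q0) (qf := qf) q X y.1
              (fun j => num (y.2 j)) (tm C .e) _ _ j hT)
            rw [hx] at this
            exact this
          rcases Nat.lt_or_gt_of_ne hne with h1 | h1
          · exact ⟨_, _, _, hA, .root (.A1 _ _), .root (.A2 _ _), C3_al _, C3_al _,
              .al (St_num' h1)⟩
          · exact ⟨_, _, _, hA, .root (.A2 _ _), .root (.A1 _ _), C3_al _, C3_al _,
              .al (St_num' h1)⟩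
        have e1 : (q, x) = mstep ins y := Prod.ext hq hxx
        rw [e1]
        exact VH.step _ _ hC
  | A a b _ _ => exact absurd (hde (.root (.A3 _ _))) h
  | S a b _ _ => exact absurd (hde (.root (.S3 _ _))) h
  | al i t _ => exact absurd (Or.inr (Or.inr (Or.inl (C3_al' _ _)))) h
  | be i t _ => exact absurd (Or.inr (Or.inl (C2_be' _ _))) h
  | de => exact absurd (Or.inl E2_de) h
  | ka => exact absurd (Or.inl E2_ka) h

theorem VH.reach {n : ℕ} {D : List (Cfg Q N)} (h : VH ins q0 n D) : ∀ x C, D = x :: C →
    ∃ k j, (mstep ins)^[j] (q0, st0 (N + 3) n k) = x := by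
  induction h with
  | init k =>
    intro x C h
    simp only [List.cons.injEq] at h
    exact ⟨k, 0, h.1⟩
  | step y C _ ih =>
    intro x C' h
    simp only [List.cons.injEq] at h
    obtain ⟨k, j, hj⟩ := ih y C rfl
    refine ⟨k, j + 1, ?_⟩
    rw [Function.iterate_succ_apply', hj]
    exact h.1

theorem VH_of_iter (n k j : ℕ) :
    ∃ C, VH ins q0 n ((mstep ins)^[j] (q0, st0 (N + 3) n k) :: C) := by
  induction j with
  | zero => exact ⟨[], VH.init k⟩
  | succ j ih =>
    obtain ⟨C, hC⟩ := ih
    rw [Function.iterate_succ_apply']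
    exact ⟨_, VH.step _ _ hC⟩

theorem main (ins : Q → MI (N + 3) Q) (q0 qf : Q) (n : ℕ) :
    (∀ y u, Mx (St ins q0 qf) n y u) ↔
      ¬ ∃ k j, (mstep ins)^[j] (q0, st0 (N + 3) n k) = (qf, fun _ => 0) := by
  constructor
  · rintro h ⟨k, j, hj⟩
    obtain ⟨C, hC⟩ := VH_of_iter (ins := ins) (q0 := q0) n k j
    rw [hj] at hC
    rcases h (tm ((qf, fun _ => 0) :: C) .e) .ka with h | h
    · exact sound hC h
    · exact not_common h
  · intro h y u
    by_contra hM
    apply h
    have h1 : ¬ Ev (St ins q0 qf) n y := fun h' => hM (Or.inl h')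
    have h2 : ¬ NA qf y := fun h' => hM (Or.inr ⟨.S u y, .root (.S1 _ _), .root (.S2 _ _ h')⟩)
    rcases dich y h1 with ⟨k, rfl⟩ | ⟨C, hC, rfl⟩
    · exact absurd (Or.inl (isN_num k)) h2
    · rcases hC with rfl | hC
      · exact absurd (Or.inr (Or.inl rfl)) h2
      · cases C with
        | nil => exact absurd (Or.inr (Or.inl rfl)) h2
        | cons x C =>
          obtain ⟨k, j, hj⟩ := hC.reach x C rfl
          refine ⟨k, j, hj.trans ?_⟩
          have hq : x.1 = qf := by
            by_contra hq
            exact h2 (Or.inr (Or.inr (Or.inl ⟨_, _, _, rfl, hq⟩)))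
          refine Prod.ext hq ?_
          funext i
          by_contra h0
          obtain ⟨v, hv⟩ := Nat.exists_eq_succ_of_ne_zero h0
          refine h2 (Or.inr (Or.inr (Or.inr ⟨_, _, i, num v, by rw [← hq]; rfl, ?_⟩)))
          simp only [hv]
          rfl

end Pool.Agent.Q227.OR
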