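import Pool.Agent.Q227.OR.Ev
import Pool.Agent.Helper273.Machine

/-!
# The concrete rewrite relation
-/

set_option autoImplicit false

namespace Pool.Agent.Q227.OR

open Pool.Agent.Helper273.Machine (MI mstep st0)
open Function (update)

/-- ground terms of the special signature -/
inductive T (Q : Type) (N : ℕ) : Type
  | z : T Q N
  | s (t : T Q N) : T Q N
  | e : T Q N
  | c (q : Q) (X : Fin (N + 3) → T Q N) (w : T Q N) : T Q N
  | A (a b : T Q N) : T Q N
  | S (a b : T Q N) : T Q N
  | al (i : Fin 3) (t : T Q N) : T Q N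
  | be (i : Fin 2) (t : T Q N) : T Q N
  | de : T Q N
  | ka : T Q N

variable {Q : Type} {N : ℕ}

open T

/-- symbolic machine step on registers holding terms -/
inductive TS (ins : Q → MI (N + 3) Q) : Q → (Fin (N + 3) → T Q N) → Q → (Fin (N + 3) → T Q N) → Prop
  | inc (q r p Y) : ins q = .inc r p → TS ins q Y p (update Y r (s (Y r)))
  | dz (q r p p' Y) : ins q = .dec r p p' → Y r = z → TS ins q Y p' Y
  | dp (q r p p' Y v) : ins q = .dec r p p' → Y r = s v → TS ins q Y p (update Y r v)
  | jm (q p Y) : ins q = .jmp p → TS ins q Y p Y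

/-- the root is `e` or a cell -/
def IsL (t : T Q N) : Prop := t = e ∨ ∃ q Y w, t = c q Y w

/-- the root is `z` or `s` -/
def IsN (t : T Q N) : Prop := t = z ∨ ∃ v, t = s v

/-- the root is not that of an accepting configuration -/
def NA (qf : Q) (t : T Q N) : Prop :=
  IsN t ∨ t = e ∨ (∃ q X w, t = c q X w ∧ q ≠ qf) ∨ ∃ X w j v, t = c qf X w ∧ X j = s v

/-- the rewrite rules -/
inductive Rt (ins : Q → MI (N + 3) Q) (q0 qf : Q) : T Q N → T Q N → Prop
  | trunc (t) : Rt ins q0 qf (s t) z
  | sbad (t) : IsL t → Rt ins q0 qf (s t) de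
  | regbad (q X w j) : IsL (X j) → Rt ins q0 qf (c q X w) de
  | tlbad (q X w) : IsN w → Rt ins q0 qf (c q X w) de
  | inibad (q X) : q ≠ q0 → Rt ins q0 qf (c q X e) de
  | inibad' (X) (j : Fin (N + 3)) (v) : 2 ≤ (j : ℕ) → X j = s v → Rt ins q0 qf (c q0 X e) de
  | ini (X) : Rt ins q0 qf (c q0 X e) (be 0 (X 0))
  | viol (q X q' Y w p Z) : TS ins q' Y p Z → q ≠ p → Rt ins q0 qf (c q X (c q' Y w)) de
  | extr (q X q' Y w p Z j) : TS ins q' Y p Z →
      Rt ins q0 qf (c q X (c q' Y w)) (A (X j) (Z j))
  | A1 (a b) : Rt ins q0 qf (A a b) (al 0 a)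
  | A2 (a b) : Rt ins q0 qf (A a b) (al 0 b)
  | A3 (a b) : Rt ins q0 qf (A a b) de
  | alc (i t) : Rt ins q0 qf (al i t) (al (i + 1) t)
  | bec (i t) : Rt ins q0 qf (be i t) (be (i + 1) t)
  | als (t) : Rt ins q0 qf (al 0 (s t)) (be 0 t)
  | bes (t) : Rt ins q0 qf (be 0 (s t)) (al 0 t)
  | alz : Rt ins q0 qf (al 0 z) de
  | bez : Rt ins q0 qf (be 0 z) de
  | dk : Rt ins q0 qf de ka
  | kk : Rt ins q0 qf ka ka
  | S1 (a b) : Rt ins q0 qf (S a b) a
  | S2 (a b) : NA qf b → Rt ins q0 qf (S a b) b
  | S3 (a b) : Rt ins q0 qf (S a b) de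

/-- one-step rewriting -/
inductive St (ins : Q → MI (N + 3) Q) (q0 qf : Q) : T Q N → T Q N → Prop
  | root {t t'} : Rt ins q0 qf t t' → St ins q0 qf t t'
  | s {t t'} : St ins q0 qf t t' → St ins q0 qf (s t) (s t')
  | cr {q X w} (j) {x'} : St ins q0 qf (X j) x' → St ins q0 qf (c q X w) (c q (update X j x') w)
  | cw {q X w w'} : St ins q0 qf w w' → St ins q0 qf (c q X w) (c q X w')
  | Al {a b a'} : St ins q0 qf a a' → St ins q0 qf (A a b) (A a' b)
  | Ar {a b b'} : St ins q0 qf b b' → St ins q0 qf (A a b) (A a b')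
  | Sl {a b a'} : St ins q0 qf a a' → St ins q0 qf (S a b) (S a' b)
  | Sr {a b b'} : St ins q0 qf b b' → St ins q0 qf (S a b) (S a b')
  | al {i t t'} : St ins q0 qf t t' → St ins q0 qf (al i t) (al i t')
  | be {i t t'} : St ins q0 qf t t' → St ins q0 qf (be i t) (be i t')

/-- numerals -/
def num : ℕ → T Q N
  | 0 => z
  | k + 1 => s (num k)

theorem num_inj {i j : ℕ} (h : (num i : T Q N) = num j) : i = j := by
  induction i generalizing j with
  | zero =>
    cases j with
    | zero => rfl
    | succ j => simp [num] at h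
  | succ i ih =>
    cases j with
    | zero => simp [num] at h
    | succ j =>
      simp only [num, T.s.injEq] at h
      rw [ih h]

theorem isN_num (k : ℕ) : IsN (num k : T Q N) := by
  cases k with
  | zero => exact Or.inl rfl
  | succ k => exact Or.inr ⟨_, rfl⟩

theorem not_isL_num (k : ℕ) : ¬ IsL (num k : T Q N) := by
  cases k with
  | zero => rintro (h | ⟨_, _, _, h⟩) <;> simp [num] at h
  | succ k => rintro (h | ⟨_, _, _, h⟩) <;> simp [num] at h

/-- heads -/
inductive Hd : Type
  | e | A (a b : ℕ) | al (i : Fin 3) (a : ℕ) | be (i : Fin 2) (a : ℕ) | de | ka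

/-- the term of a head -/
def hd : Hd → T Q N
  | .e => .e
  | .A a b => .A (num a) (num b)
  | .al i a => .al i (num a)
  | .be i a => .be i (num a)
  | .de => .de
  | .ka => .ka

theorem hd_inj {h h' : Hd} (e : (hd h : T Q N) = hd h') : h = h' := by
  cases h <;> cases h' <;> simp [hd] at e <;> first | rfl | skip
  · rw [num_inj e.1, num_inj e.2]
  · rw [e.1, num_inj e.2]
  · rw [e.1, num_inj e.2]

/-- configurations -/
abbrev Cfg (Q : Type) (N : ℕ) : Type := Q × (Fin (N + 3) → ℕ)

/-- the term of a list of configurations, last configuration first, ended by a head -/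
def tm : List (Cfg Q N) → Hd → T Q N
  | [], h => hd h
  | x :: C, h => c x.1 (fun j => num (x.2 j)) (tm C h)

theorem tm_inj {C C' : List (Cfg Q N)} {h h' : Hd} (e : tm C h = tm C' h') :
    C = C' ∧ h = h' := by
  induction C generalizing C' with
  | nil =>
    cases C' with
    | nil => exact ⟨rfl, hd_inj e⟩
    | cons x C' => exfalso; cases h <;> simp [tm, hd] at e
  | cons x C ih =>
    cases C' with
    | nil => exfalso; cases h' <;> simp [tm, hd] at e
    | cons y C' =>
      simp only [tm, T.c.injEq] at e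
      obtain ⟨e1, e2, e3⟩ := e
      obtain ⟨e4, e5⟩ := ih e3
      refine ⟨?_, e5⟩
      rw [e4]
      congr 1
      refine Prod.ext e1 ?_
      funext j
      exact num_inj (congrFun e2 j)

/-- steps of heads -/
inductive HS : Hd → Hd → Prop
  | Aa {a a' b} : a' < a → HS (.A a b) (.A a' b)
  | Ab {a b b'} : b' < b → HS (.A a b) (.A a b')
  | A1 (a b) : HS (.A a b) (.al 0 a)
  | A2 (a b) : HS (.A a b) (.al 0 b)
  | A3 (a b) : HS (.A a b) .de
  | ala {i a a'} : a' < a → HS (.al i a) (.al i a')
  | bea {i a a'} : a' < a → HS (.be i a) (.be i a')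
  | alc (i a) : HS (.al i a) (.al (i + 1) a)
  | bec (i a) : HS (.be i a) (.be (i + 1) a)
  | als (a) : HS (.al 0 (a + 1)) (.be 0 a)
  | bes (a) : HS (.be 0 (a + 1)) (.al 0 a)
  | alz : HS (.al 0 0) .de
  | bez : HS (.be 0 0) .de
  | dk : HS .de .ka
  | kk : HS .ka .ka

/-- steps of lists of configurations with a head -/
inductive SW (ins : Q → MI (N + 3) Q) (q0 : Q) :
    List (Cfg Q N) → Hd → List (Cfg Q N) → Hd → Prop
  | hd {h h'} : HS h h' → SW ins q0 [] h [] h'
  | reg {q x C h} (j) {i} : i < x j → SW ins q0 ((q, x) :: C) h ((q, update x j i) :: C) h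
  | tl {x C h C' h'} : SW ins q0 C h C' h' → SW ins q0 (x :: C) h (x :: C') h'
  | inibad {q x} : (q ≠ q0 ∨ ∃ j : Fin (N + 3), 2 ≤ (j : ℕ) ∧ 0 < x j) → SW ins q0 [(q, x)] .e [] .de
  | ini {x} : SW ins q0 [(q0, x)] .e [] (.be 0 (x 0))
  | viol {q x y C h} : q ≠ (mstep ins y).1 → SW ins q0 ((q, x) :: y :: C) h [] .de
  | extr {q x y C h} (j) : SW ins q0 ((q, x) :: y :: C) h [] (.A (x j) ((mstep ins y).2 j))

variable {ins : Q → MI (N + 3) Q} {q0 qf : Q}

theorem St_num {k : ℕ} {t : T Q N} (h : St ins q0 qf (num k) t) : ∃ i < k, t = num i := by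
  induction k generalizing t with
  | zero =>
    rcases h with ⟨h⟩
    exact absurd h (by simp only [num]; intro h; cases h)
  | succ k ih =>
    simp only [num] at h
    cases h with
    | root h =>
      cases h with
      | trunc => exact ⟨0, by omega, rfl⟩
      | sbad _ h => exact absurd h (not_isL_num k)
    | s h =>
      obtain ⟨i, hi, rfl⟩ := ih h
      exact ⟨i + 1, by omega, rfl⟩

theorem St_num' {i k : ℕ} (h : i < k) : St ins q0 qf (num k : T Q N) (num i) := by
  induction k generalizing i with
  | zero => omega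
  | succ k ih =>
    cases i with
    | zero => exact St.root (Rt.trunc _)
    | succ i => exact St.s (ih (by omega))

theorem St_hd {h : Hd} {t : T Q N} (hs : St ins q0 qf (hd h) t) :
    ∃ h', t = hd h' ∧ HS h h' := by
  cases h with
  | e => 
    rcases hs with ⟨hs⟩
    exact absurd hs (by simp only [hd]; intro h; cases h)
  | A a b =>
    simp only [hd] at hs
    cases hs with
    | root h =>
      cases h with
      | A1 => exact ⟨.al 0 a, rfl, .A1 _ _⟩
      | A2 => exact ⟨.al 0 b, rfl, .A2 _ _⟩
      | A3 => exact ⟨.de, rfl, .A3 _ _⟩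
    | Al h =>
      obtain ⟨i, hi, rfl⟩ := St_num h
      exact ⟨.A i b, rfl, .Aa hi⟩
    | Ar h =>
      obtain ⟨i, hi, rfl⟩ := St_num h
      exact ⟨.A a i, rfl, .Ab hi⟩
  | al i a =>
    simp only [hd] at hs
    rcases hs with ⟨h⟩ | _ | _ | _ | _ | _ | _ | _ | h | _
    · generalize hb : (num a : T Q N) = b at h
      cases h with
      | alc => exact ⟨.al (i + 1) a, by rw [← hb]; rfl, .alc _ _⟩
      | als t =>
        cases a with
        | zero => simp [num] at hb
        | succ a =>
          simp only [num, T.s.injEq] at hb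
          exact ⟨.be 0 a, by rw [← hb]; rfl, .als _⟩
      | alz =>
        cases a with
        | zero => exact ⟨.de, rfl, .alz⟩
        | succ a => simp [num] at hb
    · obtain ⟨j, hj, rfl⟩ := St_num h
      exact ⟨.al i j, rfl, .ala hj⟩
  | be i a =>
    simp only [hd] at hs
    rcases hs with ⟨h⟩ | _ | _ | _ | _ | _ | _ | _ | _ | h
    · generalize hb : (num a : T Q N) = b at h
      cases h with
      | bec => exact ⟨.be (i + 1) a, by rw [← hb]; rfl, .bec _ _⟩
      | bes t =>
        cases a with
        | zero => simp [num] at hb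
        | succ a =>
          simp only [num, T.s.injEq] at hb
          exact ⟨.al 0 a, by rw [← hb]; rfl, .bes _⟩
      | bez =>
        cases a with
        | zero => exact ⟨.de, rfl, .bez⟩
        | succ a => simp [num] at hb
    · obtain ⟨j, hj, rfl⟩ := St_num h
      exact ⟨.be i j, rfl, .bea hj⟩
  | de =>
    simp only [hd] at hs
    rcases hs with ⟨h⟩
    cases h with
    | dk => exact ⟨.ka, rfl, .dk⟩
  | ka =>
    simp only [hd] at hs
    rcases hs with ⟨h⟩
    cases h with
    | kk => exact ⟨.ka, rfl, .kk⟩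

/-- the symbolic step on numerals -/
theorem TS_num {q : Q} {y : Fin (N + 3) → ℕ} {p : Q} {Z : Fin (N + 3) → T Q N}
    (h : TS ins q (fun j => num (y j)) p Z) :
    p = (mstep ins (q, y)).1 ∧ Z = fun j => num ((mstep ins (q, y)).2 j) := by
  generalize hY : (fun j => (num (y j) : T Q N)) = Y at h
  cases h with
  | inc r p Y h =>
    subst hY
    simp only [mstep, h]
    refine ⟨trivial, ?_⟩
    funext j
    by_cases hj : j = r
    · subst hj; simp [num]
    · simp [hj]
  | dz r _ p' Y h hr =>
    subst hY
    have : y r = 0 := num_inj (hr.trans rfl)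
    simp only [mstep, h, this, if_true]
    trivial
  | dp r _ p' Y v h hr =>
    subst hY
    simp only at hr
    cases hy : y r with
    | zero => rw [hy] at hr; simp [num] at hr
    | succ k =>
      rw [hy] at hr
      simp only [num, T.s.injEq] at hr
      subst hr
      simp only [mstep, h, hy]
      refine ⟨by simp, ?_⟩
      funext j
      by_cases hj : j = r
      · subst hj; simp
      · simp [hj]
  | jm _ Y h =>
    subst hY
    simp only [mstep, h]
    trivial

theorem TS_num' (q : Q) (y : Fin (N + 3) → ℕ) :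
    TS ins q (fun j => num (y j)) (mstep ins (q, y)).1
      (fun j => (num ((mstep ins (q, y)).2 j) : T Q N)) := by
  have key : ∀ p Z, TS ins q (fun j => (num (y j) : T Q N)) p Z → TS ins q (fun j => num (y j)) (mstep ins (q, y)).1
      (fun j => (num ((mstep ins (q, y)).2 j) : T Q N)) := by
    intro p Z h
    obtain ⟨h1, h2⟩ := TS_num h
    rw [← h1, ← h2]
    exact h
  cases h : ins q with
  | inc r p => exact key _ _ (TS.inc q r p _ h)
  | dec r p p' =>
    cases hy : y r with
    | zero => exact key _ _ (TS.dz q r p p' _ h (by simp only [hy]; rfl))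
    | succ k => exact key _ _ (TS.dp q r p p' _ (num k) h (by simp only [hy]; rfl))
  | jmp p => exact key _ _ (TS.jm q p _ h)

theorem update_num (x : Fin (N + 3) → ℕ) (j : Fin (N + 3)) (i : ℕ) :
    update (fun j => (num (x j) : T Q N)) j (num i) = fun k => num (update x j i k) := by
  funext k
  by_cases hk : k = j
  · subst hk; simp
  · simp [hk]

/-- steps of the terms of lists of configurations -/
theorem St_tm {C : List (Cfg Q N)} {h : Hd} {t : T Q N} (hs : St ins q0 qf (tm C h) t) :
    ∃ C' h', t = tm C' h' ∧ SW ins q0 C h C' h' := by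
  induction C generalizing t with
  | nil =>
    obtain ⟨h', rfl, h2⟩ := St_hd hs
    exact ⟨[], h', rfl, .hd h2⟩
  | cons x C ih =>
    obtain ⟨q, x⟩ := x
    simp only [tm] at hs
    rcases hs with ⟨hr⟩ | _ | ⟨j, hr⟩ | hr | _ | _ | _ | _ | _ | _
    · generalize hw : tm C h = w at hr
      generalize hX : (fun j => (num (x j) : T Q N)) = X at hr
      cases hr with
      | regbad _ _ _ j hj =>
        subst hX
        exact absurd hj (not_isL_num _)
      | tlbad _ _ _ hj =>
        exfalso
        subst hw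
        cases C with
        | nil => cases h <;> rcases hj with hj | ⟨v, hj⟩ <;> simp [tm, hd] at hj
        | cons y C => rcases hj with hj | ⟨v, hj⟩ <;> simp [tm] at hj
      | inibad _ _ hq =>
        cases C with
        | nil =>
          have : h = .e := hd_inj (Q := Q) (N := N) hw
          subst this
          exact ⟨[], .de, rfl, .inibad (Or.inl hq)⟩
        | cons y C => simp [tm] at hw
      | inibad' _ j v hj hv =>
        subst hX
        cases C with
        | nil =>
          have : h = .e := hd_inj (Q := Q) (N := N) hw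
          subst this
          refine ⟨[], .de, rfl, .inibad (Or.inr ⟨j, hj, ?_⟩)⟩
          rcases Nat.eq_zero_or_pos (x j) with h0 | h0
          · simp only [h0] at hv; simp [num] at hv
          · exact h0
        | cons y C => simp [tm] at hw
      | ini _ =>
        subst hX
        cases C with
        | nil =>
          have : h = .e := hd_inj (Q := Q) (N := N) hw
          subst this
          exact ⟨[], .be 0 (x 0), rfl, .ini⟩
        | cons y C => simp [tm] at hw
      | viol _ _ q' Y w p Z hT hq =>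
        cases C with
        | nil => cases h <;> simp [tm, hd] at hw
        | cons y C =>
          obtain ⟨q'', y⟩ := y
          simp only [tm, T.c.injEq] at hw
          obtain ⟨rfl, rfl, rfl⟩ := hw
          obtain ⟨h1, h2⟩ := TS_num hT
          exact ⟨[], .de, rfl, .viol (h1 ▸ hq)⟩
      | extr _ _ q' Y w p Z j hT =>
        subst hX
        cases C with
        | nil => cases h <;> simp [tm, hd] at hw
        | cons y C =>
          obtain ⟨q'', y⟩ := y
          simp only [tm, T.c.injEq] at hw
          obtain ⟨rfl, rfl, rfl⟩ := hw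
          obtain ⟨h1, h2⟩ := TS_num hT
          exact ⟨[], .A (x j) ((mstep ins (q'', y)).2 j), by rw [h2]; rfl, .extr j⟩
    · obtain ⟨i, hi, rfl⟩ := St_num hr
      refine ⟨(q, update x j i) :: C, h, ?_, .reg j hi⟩
      simp only [tm, update_num]
    · obtain ⟨C', h', rfl, h2⟩ := ih hr
      exact ⟨(q, x) :: C', h', rfl, .tl h2⟩

end Pool.Agent.Q227.OR
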