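import Mathlib

/-!
# One-step rewriting and its positive theory
-/

set_option autoImplicit false

namespace Pool.Agent.Q227.OR

/-- a finite signature of function symbols with arities, containing a constant -/
structure Sig where
  F : Type
  ar : F → ℕ
  fin : Finite F
  cst : ∃ f, ar f = 0

/-- terms over a signature and a set of variables -/
inductive Tm (S : Sig) (V : Type) : Type
  | var (v : V) : Tm S V
  | app (f : S.F) (ts : Fin (S.ar f) → Tm S V) : Tm S V

/-- ground terms -/
abbrev Ground (S : Sig) : Type := Tm S Empty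

/-- substitution -/
def Tm.subst {S : Sig} {V W : Type} (σ : V → Tm S W) : Tm S V → Tm S W
  | .var v => σ v
  | .app f ts => .app f fun i => (ts i).subst σ

/-- the variables of a term -/
def Tm.vars {S : Sig} {V : Type} : Tm S V → Set V
  | .var v => {v}
  | .app _ ts => {v | ∃ i, v ∈ (ts i).vars}

/-- a rule `l → r` is admissible if `l` is not a variable and every variable of `r` occurs in
`l` -/
def RuleOk {S : Sig} (ρ : Tm S ℕ × Tm S ℕ) : Prop :=
  (∀ v, ρ.1 ≠ .var v) ∧ ρ.2.vars ⊆ ρ.1.vars

/-- one-step rewriting of ground terms: an instance of a left side at some position is replaced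
by the instance of the right side -/
inductive Step {S : Sig} (R : Set (Tm S ℕ × Tm S ℕ)) : Ground S → Ground S → Prop
  | root (ρ : Tm S ℕ × Tm S ℕ) (h : ρ ∈ R) (σ : ℕ → Ground S) :
      Step R (ρ.1.subst σ) (ρ.2.subst σ)
  | arg (f : S.F) (ts : Fin (S.ar f) → Ground S) (i : Fin (S.ar f)) (t : Ground S)
      (h : Step R (ts i) t) : Step R (.app f ts) (.app f (Function.update ts i t))

/-- positive first-order formulas in the language with equality and one binary relation symbol;
the variables are numbers -/
inductive PF : Type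
  | rel (i j : ℕ) : PF
  | eq (i j : ℕ) : PF
  | and (a b : PF) : PF
  | or (a b : PF) : PF
  | all (i : ℕ) (a : PF) : PF
  | ex (i : ℕ) (a : PF) : PF

/-- truth in a structure under an assignment -/
def PF.Holds {α : Type} (r : α → α → Prop) : PF → (ℕ → α) → Prop
  | .rel i j, v => r (v i) (v j)
  | .eq i j, v => v i = v j
  | .and a b, v => a.Holds r v ∧ b.Holds r v
  | .or a b, v => a.Holds r v ∨ b.Holds r v
  | .all i a, v => ∀ x, a.Holds r (Function.update v i x)
  | .ex i a, v => ∃ x, a.Holds r (Function.update v i x)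

/-- free variables -/
def PF.fv : PF → Set ℕ
  | .rel i j => {i, j}
  | .eq i j => {i, j}
  | .and a b => a.fv ∪ b.fv
  | .or a b => a.fv ∪ b.fv
  | .all i a => a.fv \ {i}
  | .ex i a => a.fv \ {i}

/-- no universal quantifier occurs -/
def PF.NoAll : PF → Prop
  | .rel _ _ => True
  | .eq _ _ => True
  | .and a b => a.NoAll ∧ b.NoAll
  | .or a b => a.NoAll ∧ b.NoAll
  | .all _ _ => False
  | .ex _ a => a.NoAll

/-- sentences `∀ x ∀ y ψ` with `ψ` positive and without universal quantifiers -/
def PF.AllAllEx (φ : PF) : Prop := ∃ i j ψ, φ = .all i (.all j ψ) ∧ ψ.NoAll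

/-- Gödel numbers of formulas -/
def PF.code : PF → ℕ
  | .rel i j => Nat.pair 0 (Nat.pair i j)
  | .eq i j => Nat.pair 1 (Nat.pair i j)
  | .and a b => Nat.pair 2 (Nat.pair a.code b.code)
  | .or a b => Nat.pair 3 (Nat.pair a.code b.code)
  | .all i a => Nat.pair 4 (Nat.pair i a.code)
  | .ex i a => Nat.pair 5 (Nat.pair i a.code)

/-- different formulas have different Gödel numbers -/
theorem PF.code_injective : Function.Injective PF.code := by
  intro a
  induction a with
  | rel i j =>
    intro b h
    cases b <;> simp [PF.code, Nat.pair_eq_pair] at h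
    simp [h]
  | eq i j =>
    intro b h
    cases b <;> simp [PF.code, Nat.pair_eq_pair] at h
    simp [h]
  | and a₁ a₂ ih₁ ih₂ =>
    intro b h
    cases b <;> simp [PF.code, Nat.pair_eq_pair] at h
    rw [ih₁ h.1, ih₂ h.2]
  | or a₁ a₂ ih₁ ih₂ =>
    intro b h
    cases b <;> simp [PF.code, Nat.pair_eq_pair] at h
    rw [ih₁ h.1, ih₂ h.2]
  | all i a ih =>
    intro b h
    cases b <;> simp [PF.code, Nat.pair_eq_pair] at h
    rw [h.1, ih h.2]
  | ex i a ih =>
    intro b h
    cases b <;> simp [PF.code, Nat.pair_eq_pair] at h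
    rw [h.1, ih h.2]

/-- the positive sentence `φ` holds in the structure of the ground terms with one-step rewriting
by `R` -/
def True' {S : Sig} (R : Set (Tm S ℕ × Tm S ℕ)) (φ : PF) : Prop :=
  ∀ v : ℕ → Ground S, φ.Holds (Step R) v

/-- there is an algorithm that, given a positive sentence from the class `K`, decides whether it
holds in the structure of the ground terms with one-step rewriting by `R` -/
def DecidableOn {S : Sig} (R : Set (Tm S ℕ × Tm S ℕ)) (K : PF → Prop) : Prop :=
  ∃ f : ℕ → Bool, Computable f ∧ ∀ φ : PF, φ.fv = ∅ → K φ → (f φ.code = true ↔ True' R φ)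

end Pool.Agent.Q227.OR
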