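import Pool.Agent.Q227.OR.Defs
import Pool.Agent.Q227.OR.Comp

/-!
# The signature and the rewrite system
-/

set_option autoImplicit false

namespace Pool.Agent.Q227.OR

open Pool.Agent.Helper273.Machine (MI mstep st0)
open Function (update)

/-- function symbols -/
inductive Fs (Q : Type) : Type
  | z | s | e | c (q : Q) | A | S | al (i : Fin 3) | be (i : Fin 2) | de | ka
  deriving DecidableEq, Fintype

/-- arities -/
@[reducible] def arF {Q : Type} (N : ℕ) : Fs Q → ℕ
  | .z => 0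
  | .s => 1
  | .e => 0
  | .c _ => N + 3 + 1
  | .A => 2
  | .S => 2
  | .al _ => 1
  | .be _ => 1
  | .de => 0
  | .ka => 0

/-- the signature -/
@[reducible] def sg (Q : Type) [Fintype Q] [DecidableEq Q] (N : ℕ) : Sig where
  F := Fs Q
  ar := arF N
  fin := inferInstance
  cst := ⟨.z, rfl⟩

variable {Q : Type} [Fintype Q] [DecidableEq Q] {N : ℕ} {V W : Type}

def kz : Tm (sg Q N) V := .app Fs.z fun i : Fin 0 => i.elim0
def ks (t : Tm (sg Q N) V) : Tm (sg Q N) V := .app Fs.s fun _ => t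
def ke : Tm (sg Q N) V := .app Fs.e fun i : Fin 0 => i.elim0
def kc (q : Q) (X : Fin (N + 3) → Tm (sg Q N) V) (w : Tm (sg Q N) V) : Tm (sg Q N) V :=
  .app (Fs.c q) (Fin.snoc (α := fun _ => Tm (sg Q N) V) (n := N + 3) X w)
def kA (a b : Tm (sg Q N) V) : Tm (sg Q N) V := .app Fs.A (![a, b] : Fin 2 → _)
def kS (a b : Tm (sg Q N) V) : Tm (sg Q N) V := .app Fs.S (![a, b] : Fin 2 → _)
def kal (i : Fin 3) (t : Tm (sg Q N) V) : Tm (sg Q N) V := .app (Fs.al i) fun _ => t
def kbe (i : Fin 2) (t : Tm (sg Q N) V) : Tm (sg Q N) V := .app (Fs.be i) fun _ => t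
def kde : Tm (sg Q N) V := .app Fs.de fun i : Fin 0 => i.elim0
def kka : Tm (sg Q N) V := .app Fs.ka fun i : Fin 0 => i.elim0

/-- interpretation of the symbols -/
def build : (f : Fs Q) → (Fin (arF N f) → T Q N) → T Q N
  | .z, _ => .z
  | .s, ts => .s (ts (0 : Fin 1))
  | .e, _ => .e
  | .c q, ts => .c q (fun j => ts (Fin.castSucc (n := N + 3) j)) (ts (Fin.last (N + 3)))
  | .A, ts => .A (ts (0 : Fin 2)) (ts (1 : Fin 2))
  | .S, ts => .S (ts (0 : Fin 2)) (ts (1 : Fin 2))
  | .al i, ts => .al i (ts (0 : Fin 1))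
  | .be i, ts => .be i (ts (0 : Fin 1))
  | .de, _ => .de
  | .ka, _ => .ka

/-- evaluation of terms -/
def ev (τ : V → T Q N) : Tm (sg Q N) V → T Q N
  | .var v => τ v
  | .app f ts => build f fun i => ev τ (ts i)

/-- translation of terms -/
def enc : T Q N → Tm (sg Q N) V
  | .z => kz
  | .s t => ks (enc t)
  | .e => ke
  | .c q X w => kc q (fun j => enc (X j)) (enc w)
  | .A a b => kA (enc a) (enc b)
  | .S a b => kS (enc a) (enc b)
  | .al i t => kal i (enc t)
  | .be i t => kbe i (enc t)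
  | .de => kde
  | .ka => kka

@[simp] theorem ev_var (τ : V → T Q N) (v : V) : ev τ (.var v) = τ v := rfl
@[simp] theorem ev_kz (τ : V → T Q N) : ev τ kz = .z := rfl
@[simp] theorem ev_ks (τ : V → T Q N) (t) : ev τ (ks t) = .s (ev τ t) := rfl
@[simp] theorem ev_ke (τ : V → T Q N) : ev τ ke = .e := rfl
@[simp] theorem ev_kc (τ : V → T Q N) (q X w) :
    ev τ (kc q X w) = .c q (fun j => ev τ (X j)) (ev τ w) := by
  simp only [kc, ev, build]
  congr 1
  · funext j
    congr 1
    exact Fin.snoc_castSucc (α := fun _ => Tm (sg Q N) V) _ _ _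
  · congr 1
    exact Fin.snoc_last (α := fun _ => Tm (sg Q N) V) _ _
@[simp] theorem ev_kA (τ : V → T Q N) (a b) : ev τ (kA a b) = .A (ev τ a) (ev τ b) := rfl
@[simp] theorem ev_kS (τ : V → T Q N) (a b) : ev τ (kS a b) = .S (ev τ a) (ev τ b) := rfl
@[simp] theorem ev_kal (τ : V → T Q N) (i t) : ev τ (kal i t) = .al i (ev τ t) := rfl
@[simp] theorem ev_kbe (τ : V → T Q N) (i t) : ev τ (kbe i t) = .be i (ev τ t) := rfl
@[simp] theorem ev_kde (τ : V → T Q N) : ev τ kde = .de := rfl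
@[simp] theorem ev_kka (τ : V → T Q N) : ev τ kka = .ka := rfl

@[simp] theorem ev_enc (τ : V → T Q N) (t : T Q N) : ev τ (enc t) = t := by
  induction t with
  | z => rfl
  | s t ih => simp only [enc, ev_ks, ih]
  | e => rfl
  | c q X w ihX ihw => simp only [enc, ev_kc, ihX, ihw]
  | A a b iha ihb => simp only [enc, ev_kA, iha, ihb]
  | S a b iha ihb => simp only [enc, ev_kS, iha, ihb]
  | al i t ih => simp only [enc, ev_kal, ih]
  | be i t ih => simp only [enc, ev_kbe, ih]
  | de => rfl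
  | ka => rfl

theorem ev_subst (τ : W → T Q N) (σ : V → Tm (sg Q N) W) (p : Tm (sg Q N) V) :
    ev τ (p.subst σ) = ev (fun v => ev τ (σ v)) p := by
  induction p with
  | var v => rfl
  | app f ts ih =>
    simp only [Tm.subst, ev]
    congr 1
    funext i
    exact ih i

theorem app_congr {S : Sig} {f : S.F} {ts ts' : Fin (S.ar f) → Tm S V} (h : ∀ i, ts i = ts' i) :
    (Tm.app f ts : Tm S V) = .app f ts' := by
  rw [funext h]

theorem enc_build (f : Fs Q) (ts : Fin (arF N f) → T Q N) :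
    (enc (build f ts) : Tm (sg Q N) V) = .app (S := sg Q N) f fun i => enc (ts i) := by
  cases f with
  | z => exact app_congr fun i => (Nat.not_lt_zero _ i.2).elim
  | s =>
    refine app_congr fun i => ?_
    have : i = (0 : Fin 1) := Fin.ext (by have := i.2; change _ < 1 at this; simp)
    rw [this]
  | e => exact app_congr fun i => (Nat.not_lt_zero _ i.2).elim
  | c q =>
    refine app_congr fun i => ?_
    induction i using Fin.lastCases (n := N + 3) with
    | last => exact Fin.snoc_last (α := fun _ => Tm (sg Q N) V) _ _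
    | cast j => exact Fin.snoc_castSucc (α := fun _ => Tm (sg Q N) V) _ _ _
  | A =>
    refine app_congr fun i => ?_
    change Fin 2 at i
    fin_cases i <;> rfl
  | S =>
    refine app_congr fun i => ?_
    change Fin 2 at i
    fin_cases i <;> rfl
  | al j =>
    refine app_congr fun i => ?_
    have : i = (0 : Fin 1) := Fin.ext (by have := i.2; change _ < 1 at this; simp)
    rw [this]
  | be j =>
    refine app_congr fun i => ?_
    have : i = (0 : Fin 1) := Fin.ext (by have := i.2; change _ < 1 at this; simp)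
    rw [this]
  | de => exact app_congr fun i => (Nat.not_lt_zero _ i.2).elim
  | ka => exact app_congr fun i => (Nat.not_lt_zero _ i.2).elim

theorem enc_ev (τ : V → T Q N) (p : Tm (sg Q N) V) :
    (enc (ev τ p) : Tm (sg Q N) W) = p.subst fun v => enc (τ v) := by
  induction p with
  | var v => rfl
  | app f ts ih =>
    simp only [ev, Tm.subst]
    rw [enc_build]
    exact app_congr ih

/-- ground terms as terms of the special type -/
def dec (g : Ground (sg Q N)) : T Q N := ev (fun v => v.elim) g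

theorem enc_dec (g : Ground (sg Q N)) : enc (dec g) = g := by
  unfold dec
  rw [enc_ev]
  induction g with
  | var v => exact v.elim
  | app f ts ih => exact app_congr ih

theorem dec_enc (t : T Q N) : dec (enc t) = t := ev_enc _ t

/-- indices of the rules -/
inductive RI (Q : Type) (N : ℕ) : Type
  | trunc
  | sbad (l : Option Q)
  | regbad (q : Q) (j : Fin (N + 3)) (l : Option Q)
  | tlbad (q : Q) (b : Bool)
  | inibad (q : Q)
  | inibad' (j : Fin (N + 3))
  | ini
  | viol (q q' : Q) (b : Bool)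
  | extr (q q' : Q) (b : Bool) (j : Fin (N + 3))
  | A1 | A2 | A3
  | alc (i : Fin 3)
  | bec (i : Fin 2)
  | als | bes | alz | bez | dk | kk
  | S1
  | S2n (b : Bool)
  | S2e
  | S2c (q : Q)
  | S2f (j : Fin (N + 3))
  | S3
  deriving DecidableEq, Fintype

/-- variables -/
def vx (j : Fin (N + 3)) : Tm (sg Q N) ℕ := .var (3 * j)
def vy (j : Fin (N + 3)) : Tm (sg Q N) ℕ := .var (3 * j + 1)
def vw : Tm (sg Q N) ℕ := .var 2
def vv : Tm (sg Q N) ℕ := .var 5
def vu : Tm (sg Q N) ℕ := .var 8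

def pL : Option Q → Tm (sg Q N) ℕ
  | none => ke
  | some q => kc q vy vu

def pN : Bool → Tm (sg Q N) ℕ
  | false => kz
  | true => ks vv

/-- patterns for the earlier configuration, its next state, the next registers -/
def pt (ins : Q → MI (N + 3) Q) (q : Q) (b : Bool) :
    (Fin (N + 3) → Tm (sg Q N) ℕ) × Q × (Fin (N + 3) → Tm (sg Q N) ℕ) :=
  match ins q with
  | .inc r p => (vy, p, update vy r (ks (vy r)))
  | .dec r p p' =>
    if b then (update vy r (ks (vy r)), p, vy) else (update vy r kz, p', update vy r kz)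
  | .jmp p => (vy, p, vy)

/-- the rules -/
def lr (ins : Q → MI (N + 3) Q) (q0 qf : Q) : RI Q N → Tm (sg Q N) ℕ × Tm (sg Q N) ℕ
  | .trunc => (ks vv, kz)
  | .sbad l => (ks (pL l), kde)
  | .regbad q j l => (kc q (update vx j (pL l)) vw, kde)
  | .tlbad q b => (kc q vx (pN b), kde)
  | .inibad q => if q ≠ q0 then (kc q vx ke, kde) else (kde, kka)
  | .inibad' j => if 2 ≤ (j : ℕ) then (kc q0 (update vx j (ks vv)) ke, kde) else (kde, kka)
  | .ini => (kc q0 vx ke, kbe 0 (vx 0))
  | .viol q q' b => if q ≠ (pt ins q' b).2.1 then (kc q vx (kc q' (pt ins q' b).1 vw), kde)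
      else (kde, kka)
  | .extr q q' b j => (kc q vx (kc q' (pt ins q' b).1 vw), kA (vx j) ((pt ins q' b).2.2 j))
  | .A1 => (kA vv vw, kal 0 vv)
  | .A2 => (kA vv vw, kal 0 vw)
  | .A3 => (kA vv vw, kde)
  | .alc i => (kal i vv, kal (i + 1) vv)
  | .bec i => (kbe i vv, kbe (i + 1) vv)
  | .als => (kal 0 (ks vv), kbe 0 vv)
  | .bes => (kbe 0 (ks vv), kal 0 vv)
  | .alz => (kal 0 kz, kde)
  | .bez => (kbe 0 kz, kde)
  | .dk => (kde, kka)
  | .kk => (kka, kka)
  | .S1 => (kS vv vw, vv)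
  | .S2n b => (kS vw (pN b), pN b)
  | .S2e => (kS vw ke, ke)
  | .S2c q => if q ≠ qf then (kS vv (kc q vx vw), kc q vx vw) else (kde, kka)
  | .S2f j => (kS vu (kc qf (update vx j (ks vv)) vw), kc qf (update vx j (ks vv)) vw)
  | .S3 => (kS vv vw, kde)

theorem pt_inc {ins : Q → MI (N + 3) Q} {q : Q} {r : Fin (N + 3)} {p : Q}
    (h : ins q = .inc r p) (b : Bool) : pt ins q b = (vy, p, update vy r (ks (vy r))) := by
  simp only [pt, h]

theorem pt_dz {ins : Q → MI (N + 3) Q} {q : Q} {r : Fin (N + 3)} {p p' : Q}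
    (h : ins q = .dec r p p') : pt ins q false = (update vy r kz, p', update vy r kz) := by
  simp [pt, h]

theorem pt_dp {ins : Q → MI (N + 3) Q} {q : Q} {r : Fin (N + 3)} {p p' : Q}
    (h : ins q = .dec r p p') : pt ins q true = (update vy r (ks (vy r)), p, vy) := by
  simp [pt, h]

theorem pt_jmp {ins : Q → MI (N + 3) Q} {q : Q} {p : Q}
    (h : ins q = .jmp p) (b : Bool) : pt ins q b = (vy, p, vy) := by
  simp only [pt, h]

theorem TS_pt (ins : Q → MI (N + 3) Q) (q : Q) (b : Bool) (τ : ℕ → T Q N) :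
    TS ins q (fun j => ev τ ((pt ins q b).1 j)) (pt ins q b).2.1
      (fun j => ev τ ((pt ins q b).2.2 j)) := by
  cases h : ins q with
  | inc r p =>
    rw [pt_inc h]
    have := TS.inc (ins := ins) q r p (fun j => ev τ (vy j)) h
    convert this using 1
    funext j
    by_cases hj : j = r
    · subst hj; simp
    · simp [hj]
  | dec r p p' =>
    cases b with
    | true =>
      rw [pt_dp h]
      have := TS.dp (ins := ins) q r p p' (fun j => ev τ (update vy r (ks (vy r)) j))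
        (ev τ (vy r)) h (by simp)
      convert this using 1
      funext j
      by_cases hj : j = r
      · subst hj; simp
      · simp [hj]
    | false =>
      rw [pt_dz h]
      exact TS.dz (ins := ins) q r p p' (fun j => ev τ (update vy r kz j)) h (by simp)
  | jmp p =>
    rw [pt_jmp h]
    exact TS.jm q p _ h

theorem IsL_pL (l : Option Q) (τ : ℕ → T Q N) : IsL (ev τ (pL l)) := by
  cases l with
  | none => exact Or.inl rfl
  | some q => exact Or.inr ⟨_, _, _, by simp only [pL, ev_kc]; rfl⟩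

theorem IsN_pN (b : Bool) (τ : ℕ → T Q N) : IsN (ev τ (pN b)) := by
  cases b with
  | false => exact Or.inl rfl
  | true => exact Or.inr ⟨_, rfl⟩

theorem Rt_lr (ins : Q → MI (N + 3) Q) (q0 qf : Q) (ρ : RI Q N) (τ : ℕ → T Q N) :
    Rt ins q0 qf (ev τ (lr ins q0 qf ρ).1) (ev τ (lr ins q0 qf ρ).2) := by
  cases ρ with
  | trunc => exact .trunc _
  | sbad l => exact .sbad _ (IsL_pL l τ)
  | regbad q j l =>
    simp only [lr, ev_kc, ev_kde]
    refine .regbad _ _ _ j ?_
    simp only [Function.update_self]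
    exact IsL_pL l τ
  | tlbad q b =>
    simp only [lr, ev_kc, ev_kde]
    exact .tlbad _ _ _ (IsN_pN b τ)
  | inibad q =>
    by_cases h : q ≠ q0
    · simp only [lr, if_pos h, ev_kc, ev_kde, ev_ke]
      exact .inibad _ _ h
    · simp only [lr, if_neg h]
      exact .dk
  | inibad' j =>
    by_cases h : 2 ≤ (j : ℕ)
    · simp only [lr, if_pos h, ev_kc, ev_kde, ev_ke]
      refine .inibad' _ j (ev τ vv) h ?_
      simp
    · simp only [lr, if_neg h]
      exact .dk
  | ini =>
    simp only [lr, ev_kc, ev_kbe, ev_ke]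
    exact .ini _
  | viol q q' b =>
    by_cases h : q ≠ (pt ins q' b).2.1
    · simp only [lr, if_pos h, ev_kc, ev_kde]
      exact .viol _ _ _ _ _ _ _ (TS_pt ins q' b τ) h
    · simp only [lr, if_neg h]
      exact .dk
  | extr q q' b j =>
    simp only [lr, ev_kc, ev_kA]
    exact .extr _ _ _ _ _ _ _ j (TS_pt ins q' b τ)
  | A1 => exact .A1 _ _
  | A2 => exact .A2 _ _
  | A3 => exact .A3 _ _
  | alc i => exact .alc _ _
  | bec i => exact .bec _ _
  | als => exact .als _
  | bes => exact .bes _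
  | alz => exact .alz
  | bez => exact .bez
  | dk => exact .dk
  | kk => exact .kk
  | S1 => exact .S1 _ _
  | S2n b => exact .S2 _ _ (Or.inl (IsN_pN b τ))
  | S2e => exact .S2 _ _ (Or.inr (Or.inl rfl))
  | S2c q =>
    by_cases h : q ≠ qf
    · simp only [lr, if_pos h, ev_kS, ev_kc]
      exact .S2 _ _ (Or.inr (Or.inr (Or.inl ⟨_, _, _, rfl, h⟩)))
    · simp only [lr, if_neg h]
      exact .dk
  | S2f j =>
    simp only [lr, ev_kS, ev_kc]
    refine .S2 _ _ (Or.inr (Or.inr (Or.inr ⟨_, _, j, ev τ vv, rfl, ?_⟩)))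
    simp
  | S3 => exact .S3 _ _

/-- a valuation -/
def vl (X Y : Fin (N + 3) → T Q N) (w v u : T Q N) (n : ℕ) : T Q N :=
  if h : n % 3 = 0 ∧ n / 3 < N + 3 then X ⟨n / 3, h.2⟩
  else if h : n % 3 = 1 ∧ n / 3 < N + 3 then Y ⟨n / 3, h.2⟩
  else if n = 2 then w else if n = 5 then v else u

section
variable (X Y : Fin (N + 3) → T Q N) (w v u : T Q N)

@[simp] theorem vl_x (j) : ev (vl X Y w v u) (vx j) = X j := by
  simp only [vx, ev_var, vl]
  rw [dif_pos ⟨by omega, by omega⟩]
  congr 1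
  exact Fin.ext (by simp)

@[simp] theorem vl_y (j) : ev (vl X Y w v u) (vy j) = Y j := by
  simp only [vy, ev_var, vl]
  rw [dif_neg (by omega), dif_pos ⟨by omega, by omega⟩]
  congr 1
  exact Fin.ext (by simp; omega)

@[simp] theorem vl_w : ev (vl X Y w v u) vw = w := by
  simp [vw, vl]

@[simp] theorem vl_v : ev (vl X Y w v u) vv = v := by
  simp [vv, vl]

@[simp] theorem vl_u : ev (vl X Y w v u) vu = u := by
  simp [vu, vl]

end

theorem eta (X : Fin (N + 3) → T Q N) (τ : ℕ → T Q N) (j : Fin (N + 3)) (p : Tm (sg Q N) ℕ)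
    (P : Fin (N + 3) → Tm (sg Q N) ℕ)
    (h1 : ∀ i, i ≠ j → ev τ (P i) = X i) (h2 : ev τ p = X j) :
    (fun i => ev τ (update P j p i)) = X := by
  funext i
  by_cases hi : i = j
  · subst hi; simp [h2]
  · simp [hi, h1 i hi]

theorem pt_of_TS {ins : Q → MI (N + 3) Q} {q : Q} {Y Z : Fin (N + 3) → T Q N} {p : Q}
    (hT : TS ins q Y p Z) (X : Fin (N + 3) → T Q N) (w : T Q N) :
    ∃ b τ, (∀ j, ev τ (vx j) = X j) ∧ ev τ vw = w ∧
        (fun j => ev τ ((pt ins q b).1 j)) = Y ∧ (pt ins q b).2.1 = p ∧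
        ∀ j, ev τ ((pt ins q b).2.2 j) = Z j := by
  cases hT with
  | inc r _ _ h =>
    refine ⟨false, vl X Y w .z .z, by simp, by simp, ?_, ?_, ?_⟩
    · rw [pt_inc h]; funext j; simp
    · rw [pt_inc h]
    · rw [pt_inc h]
      intro j
      by_cases hj : j = r
      · subst hj; simp
      · simp [hj]
  | dz r p _ _ h hr =>
    refine ⟨false, vl X Y w .z .z, by simp, by simp, ?_, ?_, ?_⟩
    · rw [pt_dz h]
      exact eta Y _ r _ _ (by simp) (by simp [hr])
    · rw [pt_dz h]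
    · rw [pt_dz h]
      exact congrFun (eta Y _ r _ _ (by simp) (by simp [hr]))
  | dp r _ p' _ v h hr =>
    refine ⟨true, vl X (update Y r v) w .z .z, by simp, by simp, ?_, ?_, ?_⟩
    · rw [pt_dp h]
      exact eta Y _ r _ _ (fun i hi => by simp [hi]) (by simp [hr])
    · rw [pt_dp h]
    · rw [pt_dp h]
      intro j
      simp
  | jm _ _ h =>
    refine ⟨false, vl X Y w .z .z, by simp, by simp, ?_, ?_, ?_⟩
    · rw [pt_jmp h]; funext j; simp
    · rw [pt_jmp h]
    · rw [pt_jmp h]; intro j; simp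

theorem lr_of_Rt (ins : Q → MI (N + 3) Q) (q0 qf : Q) {t t' : T Q N}
    (h : Rt ins q0 qf t t') :
    ∃ (ρ : RI Q N) (τ : ℕ → T Q N), t = ev τ (lr ins q0 qf ρ).1 ∧ t' = ev τ (lr ins q0 qf ρ).2 := by
  let zz : Fin (N + 3) → T Q N := fun _ => .z
  cases h with
  | trunc t => exact ⟨.trunc, vl zz zz .z t .z, by simp [lr], rfl⟩
  | sbad t h =>
    rcases h with rfl | ⟨q, Y, w, rfl⟩
    · exact ⟨.sbad none, vl zz zz .z .z .z, by simp [lr, pL], rfl⟩
    · exact ⟨.sbad (some q), vl zz Y .z .z w, by simp [lr, pL], rfl⟩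
  | regbad q X w j h =>
    rcases h with h | ⟨q', Y, w', h⟩
    · refine ⟨.regbad q j none, vl X zz w .z .z, ?_, rfl⟩
      simp only [lr, ev_kc, vl_w]
      rw [eta X]
      · intro i _; simp
      · rw [h]; rfl
    · refine ⟨.regbad q j (some q'), vl X Y w .z w', ?_, rfl⟩
      simp only [lr, ev_kc, vl_w]
      rw [eta X]
      · intro i _; simp
      · rw [h]; simp [pL]
  | tlbad q X w h =>
    rcases h with rfl | ⟨v, rfl⟩
    · exact ⟨.tlbad q false, vl X zz .z .z .z, by simp [lr, pN], rfl⟩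
    · exact ⟨.tlbad q true, vl X zz .z v .z, by simp [lr, pN], rfl⟩
  | inibad q X h =>
    refine ⟨.inibad q, vl X zz .z .z .z, ?_, ?_⟩ <;> simp [lr, h]
  | inibad' X j v hj h =>
    refine ⟨.inibad' j, vl X zz .z v .z, ?_, ?_⟩
    · simp only [lr, if_pos hj, ev_kc, ev_ke]
      rw [eta X]
      · intro i _; simp
      · rw [h]; simp
    · simp [lr, hj]
  | ini X =>
    exact ⟨.ini, vl X zz .z .z .z, by simp [lr], by simp [lr]⟩
  | viol q X q' Y w p Z hT hq =>
    obtain ⟨b, τ, h0, h1, h2, h3, h4⟩ : ∃ b τ, (∀ j, ev τ (vx j) = X j) ∧ ev τ vw = w ∧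
        (fun j => ev τ ((pt ins q' b).1 j)) = Y ∧ (pt ins q' b).2.1 = p ∧
        ∀ j, ev τ ((pt ins q' b).2.2 j) = Z j := pt_of_TS hT X w
    refine ⟨.viol q q' b, τ, ?_, ?_⟩
    · subst h3
      simp only [lr, if_pos hq, ev_kc, h0, h1, h2]
    · subst h3
      simp only [lr, if_pos hq, ev_kde]
  | extr q X q' Y w p Z j hT =>
    obtain ⟨b, τ, h0, h1, h2, h3, h4⟩ : ∃ b τ, (∀ j, ev τ (vx j) = X j) ∧ ev τ vw = w ∧
        (fun j => ev τ ((pt ins q' b).1 j)) = Y ∧ (pt ins q' b).2.1 = p ∧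
        ∀ j, ev τ ((pt ins q' b).2.2 j) = Z j := pt_of_TS hT X w
    refine ⟨.extr q q' b j, τ, ?_, ?_⟩
    · simp only [lr, ev_kc, h0, h1, h2]
    · simp only [lr, ev_kA, h0, h4]
  | A1 a b => exact ⟨.A1, vl zz zz b a .z, by simp [lr], by simp [lr]⟩
  | A2 a b => exact ⟨.A2, vl zz zz b a .z, by simp [lr], by simp [lr]⟩
  | A3 a b => exact ⟨.A3, vl zz zz b a .z, by simp [lr], by simp [lr]⟩
  | alc i t => exact ⟨.alc i, vl zz zz .z t .z, by simp [lr], by simp [lr]⟩
  | bec i t => exact ⟨.bec i, vl zz zz .z t .z, by simp [lr], by simp [lr]⟩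
  | als t => exact ⟨.als, vl zz zz .z t .z, by simp [lr], by simp [lr]⟩
  | bes t => exact ⟨.bes, vl zz zz .z t .z, by simp [lr], by simp [lr]⟩
  | alz => exact ⟨.alz, vl zz zz .z .z .z, by simp [lr], by simp [lr]⟩
  | bez => exact ⟨.bez, vl zz zz .z .z .z, by simp [lr], by simp [lr]⟩
  | dk => exact ⟨.dk, vl zz zz .z .z .z, by simp [lr], by simp [lr]⟩
  | kk => exact ⟨.kk, vl zz zz .z .z .z, by simp [lr], by simp [lr]⟩
  | S1 _ b => exact ⟨.S1, vl zz zz b t' .z, by simp [lr], by simp [lr]⟩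
  | S2 a b h =>
    rcases h with (rfl | ⟨v, rfl⟩) | rfl | ⟨q, X, w, rfl, hq⟩ | ⟨X, w, j, v, rfl, hj⟩
    · exact ⟨.S2n false, vl zz zz a .z .z, by simp [lr, pN], by simp [lr, pN]⟩
    · exact ⟨.S2n true, vl zz zz a v .z, by simp [lr, pN], by simp [lr, pN]⟩
    · exact ⟨.S2e, vl zz zz a .z .z, by simp [lr], by simp [lr]⟩
    · refine ⟨.S2c q, vl X zz w a .z, ?_, ?_⟩ <;> simp [lr, hq]
    · refine ⟨.S2f j, vl X zz w v a, ?_, ?_⟩
      · simp only [lr, ev_kS, ev_kc, vl_w, vl_u]
        rw [eta X]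
        · intro i _; simp
        · rw [hj]; simp
      · simp only [lr, ev_kc, vl_w]
        rw [eta X]
        · intro i _; simp
        · rw [hj]; simp
  | S3 a b => exact ⟨.S3, vl zz zz b a .z, by simp [lr], by simp [lr]⟩

end Pool.Agent.Q227.OR
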