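import Pool.Agent.Q227.OR.Emb

/-!
# One-step rewriting by the system
-/

set_option autoImplicit false

namespace Pool.Agent.Q227.OR

open Pool.Agent.Helper273.Machine (MI mstep st0)
open Function (update)

variable {Q : Type} [Fintype Q] [DecidableEq Q] {N : ℕ} {V W : Type}
  {ins : Q → MI (N + 3) Q} {q0 qf : Q}

/-- the rewrite system -/
def RR (ins : Q → MI (N + 3) Q) (q0 qf : Q) : Set (Tm (sg Q N) ℕ × Tm (sg Q N) ℕ) :=
  Set.range (lr ins q0 qf)

theorem RR_finite : (RR ins q0 qf).Finite := Set.finite_range _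

/-- children of a unary symbol -/
theorem build_c (q : Q) (ts : Fin (N + 3 + 1) → T Q N) :
    build (N := N) (Fs.c q) ts =
      .c q (fun j => ts (Fin.castSucc (n := N + 3) j)) (ts (Fin.last (N + 3))) := rfl

theorem build_c_cast (q : Q) (ts : Fin (N + 3 + 1) → T Q N) (j : Fin (N + 3)) (b : T Q N) :
    build (N := N) (Fs.c q) (update ts (Fin.castSucc (n := N + 3) j) b) =
      .c q (update (fun j => ts (Fin.castSucc (n := N + 3) j)) j b) (ts (Fin.last (N + 3))) := by
  rw [build_c]
  congr 1
  · funext k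
    by_cases hk : k = j
    · subst hk
      rw [Function.update_self, Function.update_self]
    · rw [Function.update_of_ne hk,
        Function.update_of_ne (fun h => hk (Fin.castSucc_injective _ h))]
  · rw [Function.update_of_ne (Fin.castSucc_lt_last j).ne']

theorem build_c_last (q : Q) (ts : Fin (N + 3 + 1) → T Q N) (b : T Q N) :
    build (N := N) (Fs.c q) (update ts (Fin.last (N + 3)) b) =
      .c q (fun j => ts (Fin.castSucc (n := N + 3) j)) b := by
  rw [build_c]
  congr 1
  · funext k
    rw [Function.update_of_ne (Fin.castSucc_lt_last k).ne]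
  · rw [Function.update_self]

theorem fin1 (i : Fin 1) : i = 0 := Subsingleton.elim _ _

theorem St_build (f : Fs Q) (ts : Fin (arF N f) → T Q N) (i : Fin (arF N f)) (b : T Q N)
    (h : St ins q0 qf (ts i) b) : St ins q0 qf (build f ts) (build f (update ts i b)) := by
  cases f with
  | z => exact (Nat.not_lt_zero _ i.2).elim
  | s =>
    change Fin 1 → T Q N at ts
    change Fin 1 at i
    obtain rfl := fin1 i
    have e : build (N := N) (Fs.s : Fs Q) (update ts 0 b) = .s b :=
      congrArg T.s (Function.update_self (0 : Fin 1) b ts)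
    rw [e]
    exact St.s h
  | e => exact (Nat.not_lt_zero _ i.2).elim
  | c q =>
    change Fin (N + 3 + 1) → T Q N at ts
    change Fin (N + 3 + 1) at i
    induction i using Fin.lastCases with
    | last =>
      rw [build_c_last, build_c]
      exact St.cw h
    | cast j =>
      rw [build_c_cast, build_c]
      exact St.cr (X := fun j => ts (Fin.castSucc (n := N + 3) j)) j h
  | A =>
    change Fin 2 → T Q N at ts
    change Fin 2 at i
    fin_cases i
    · exact St.Al h
    · exact St.Ar h
  | S =>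
    change Fin 2 → T Q N at ts
    change Fin 2 at i
    fin_cases i
    · exact St.Sl h
    · exact St.Sr h
  | al j =>
    change Fin 1 → T Q N at ts
    change Fin 1 at i
    obtain rfl := fin1 i
    have e : build (N := N) (Fs.al j : Fs Q) (update ts 0 b) = .al j b :=
      congrArg (T.al j) (Function.update_self (0 : Fin 1) b ts)
    rw [e]
    exact St.al h
  | be j =>
    change Fin 1 → T Q N at ts
    change Fin 1 at i
    obtain rfl := fin1 i
    have e : build (N := N) (Fs.be j : Fs Q) (update ts 0 b) = .be j b :=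
      congrArg (T.be j) (Function.update_self (0 : Fin 1) b ts)
    rw [e]
    exact St.be h
  | de => exact (Nat.not_lt_zero _ i.2).elim
  | ka => exact (Nat.not_lt_zero _ i.2).elim

theorem Step_St {g g' : Ground (sg Q N)} (h : Step (RR ins q0 qf) g g') :
    St ins q0 qf (dec g) (dec g') := by
  induction h with
  | root ρ hρ σ =>
    obtain ⟨k, rfl⟩ := hρ
    unfold dec
    rw [ev_subst, ev_subst]
    exact St.root (Rt_lr _ _ _ _ _)
  | arg f ts i t _ ih =>
    have h1 := St_build (f : Fs Q) (fun i => dec (ts i)) i (dec t) ih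
    have h2 : dec (Tm.app f (update ts i t)) =
        build (N := N) (f : Fs Q) (update (fun i => dec (ts i)) i (dec t)) := by
      change build (N := N) (f : Fs Q) (fun j => dec (update ts i t j)) = _
      congr 1
      funext j
      by_cases hj : j = i
      · subst hj
        rw [Function.update_self, Function.update_self]
      · rw [Function.update_of_ne hj, Function.update_of_ne hj]
    rw [h2]
    exact h1

theorem Step_build (f : Fs Q) (ts : Fin (arF N f) → T Q N) (i : Fin (arF N f)) (b : T Q N)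
    (h : Step (RR ins q0 qf) (enc (ts i)) (enc b)) :
    Step (RR ins q0 qf) (enc (build f ts)) (enc (build f (update ts i b))) := by
  rw [enc_build, enc_build]
  have := Step.arg (S := sg Q N) (R := RR ins q0 qf) f (fun i => enc (ts i)) i (enc b) h
  have e : (Tm.app (S := sg Q N) f (update (fun i => enc (ts i)) i (enc b)) : Ground (sg Q N)) =
      Tm.app (S := sg Q N) f (fun j => enc (update ts i b j)) := by
    refine app_congr fun j => ?_
    by_cases hj : j = i
    · subst hj
      rw [Function.update_self]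
      exact congrArg enc (Function.update_self (β := fun _ => T Q N) _ _ _).symm
    · rw [Function.update_of_ne hj]
      exact congrArg enc (Function.update_of_ne (β := fun _ => T Q N) hj _ _).symm
  rw [e] at this
  exact this

theorem St_Step {t t' : T Q N} (h : St ins q0 qf t t') :
    Step (RR ins q0 qf) (enc t) (enc t') := by
  induction h with
  | root h =>
    obtain ⟨ρ, τ, rfl, rfl⟩ := lr_of_Rt _ _ _ h
    rw [enc_ev, enc_ev]
    exact Step.root (lr ins q0 qf ρ) (Set.mem_range_self ρ) _
  | @s t t' _ ih =>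
    have h1 := Step_build (Fs.s : Fs Q) (fun _ : Fin 1 => t) (0 : Fin 1) t' ih
    have e : build (N := N) (Fs.s : Fs Q) (update (fun _ : Fin 1 => t) 0 t') = .s t' :=
      congrArg T.s (Function.update_self (β := fun _ : Fin 1 => T Q N) (0 : Fin 1) t' _)
    rw [e] at h1
    exact h1
  | @cr q X w j x' _ ih =>
    have h1 := Step_build (Fs.c q : Fs Q)
      (Fin.snoc (α := fun _ => T Q N) (n := N + 3) X w) (Fin.castSucc (n := N + 3) j) x' (by
        have h2 := Fin.snoc_castSucc (α := fun _ => T Q N) (n := N + 3) w X j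
        rw [h2]
        exact ih)
    rw [build_c_cast, build_c] at h1
    simp only [Fin.snoc_castSucc, Fin.snoc_last] at h1
    exact h1
  | @cw q X w w' _ ih =>
    have h1 := Step_build (Fs.c q : Fs Q)
      (Fin.snoc (α := fun _ => T Q N) (n := N + 3) X w) (Fin.last (N + 3)) w' (by
        have h2 := Fin.snoc_last (α := fun _ => T Q N) (n := N + 3) w X
        rw [h2]
        exact ih)
    rw [build_c_last, build_c] at h1
    simp only [Fin.snoc_castSucc, Fin.snoc_last] at h1
    exact h1
  | @Al a b a' _ ih =>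
    exact Step_build (Fs.A : Fs Q) (![a, b] : Fin 2 → T Q N) (0 : Fin 2) a' ih
  | @Ar a b b' _ ih =>
    exact Step_build (Fs.A : Fs Q) (![a, b] : Fin 2 → T Q N) (1 : Fin 2) b' ih
  | @Sl a b a' _ ih =>
    exact Step_build (Fs.S : Fs Q) (![a, b] : Fin 2 → T Q N) (0 : Fin 2) a' ih
  | @Sr a b b' _ ih =>
    exact Step_build (Fs.S : Fs Q) (![a, b] : Fin 2 → T Q N) (1 : Fin 2) b' ih
  | @al j t t' _ ih =>
    have h1 := Step_build (Fs.al j : Fs Q) (fun _ : Fin 1 => t) (0 : Fin 1) t' ih
    have e : build (N := N) (Fs.al j : Fs Q) (update (fun _ : Fin 1 => t) 0 t') = .al j t' :=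
      congrArg (T.al j) (Function.update_self (β := fun _ : Fin 1 => T Q N) (0 : Fin 1) t' _)
    rw [e] at h1
    exact h1
  | @be j t t' _ ih =>
    have h1 := Step_build (Fs.be j : Fs Q) (fun _ : Fin 1 => t) (0 : Fin 1) t' ih
    have e : build (N := N) (Fs.be j : Fs Q) (update (fun _ : Fin 1 => t) 0 t') = .be j t' :=
      congrArg (T.be j) (Function.update_self (β := fun _ : Fin 1 => T Q N) (0 : Fin 1) t' _)
    rw [e] at h1
    exact h1

theorem Mx_ground (n : ℕ) : (∀ y u, Mx (Step (RR ins q0 qf)) n y u) ↔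
    ∀ y u, Mx (St ins q0 qf) n y u := by
  constructor
  · intro h y u
    have := (h (enc y) (enc u)).map dec fun _ _ => Step_St
    rwa [dec_enc, dec_enc] at this
  · intro h y u
    have := (h (dec y) (dec u)).map enc fun _ _ => St_Step
    rwa [enc_dec, enc_dec] at this

/-! ### the rules are admissible -/

theorem vars_kz : (kz : Tm (sg Q N) V).vars = ∅ := by
  ext v
  simp only [kz, Tm.vars, Set.mem_setOf_eq, Set.mem_empty_iff_false, iff_false]
  rintro ⟨i, _⟩
  exact (Nat.not_lt_zero _ i.2).elim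

theorem vars_ke : (ke : Tm (sg Q N) V).vars = ∅ := by
  ext v
  simp only [ke, Tm.vars, Set.mem_setOf_eq, Set.mem_empty_iff_false, iff_false]
  rintro ⟨i, _⟩
  exact (Nat.not_lt_zero _ i.2).elim

theorem vars_kde : (kde : Tm (sg Q N) V).vars = ∅ := by
  ext v
  simp only [kde, Tm.vars, Set.mem_setOf_eq, Set.mem_empty_iff_false, iff_false]
  rintro ⟨i, _⟩
  exact (Nat.not_lt_zero _ i.2).elim

theorem vars_kka : (kka : Tm (sg Q N) V).vars = ∅ := by
  ext v
  simp only [kka, Tm.vars, Set.mem_setOf_eq, Set.mem_empty_iff_false, iff_false]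
  rintro ⟨i, _⟩
  exact (Nat.not_lt_zero _ i.2).elim

theorem vars_ks (t : Tm (sg Q N) V) : (ks t).vars = t.vars := by
  ext v
  exact ⟨fun ⟨_, h⟩ => h, fun h => ⟨(0 : Fin 1), h⟩⟩

theorem vars_kal (i : Fin 3) (t : Tm (sg Q N) V) : (kal i t).vars = t.vars := by
  ext v
  exact ⟨fun ⟨_, h⟩ => h, fun h => ⟨(0 : Fin 1), h⟩⟩

theorem vars_kbe (i : Fin 2) (t : Tm (sg Q N) V) : (kbe i t).vars = t.vars := by
  ext v
  exact ⟨fun ⟨_, h⟩ => h, fun h => ⟨(0 : Fin 1), h⟩⟩

theorem vars_kA (a b : Tm (sg Q N) V) : (kA a b).vars = a.vars ∪ b.vars := by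
  ext v
  constructor
  · rintro ⟨i, h⟩
    change Fin 2 at i
    fin_cases i
    · exact Or.inl h
    · exact Or.inr h
  · rintro (h | h)
    · exact ⟨(0 : Fin 2), h⟩
    · exact ⟨(1 : Fin 2), h⟩

theorem vars_kS (a b : Tm (sg Q N) V) : (kS a b).vars = a.vars ∪ b.vars := by
  ext v
  constructor
  · rintro ⟨i, h⟩
    change Fin 2 at i
    fin_cases i
    · exact Or.inl h
    · exact Or.inr h
  · rintro (h | h)
    · exact ⟨(0 : Fin 2), h⟩
    · exact ⟨(1 : Fin 2), h⟩

theorem mem_vars_kc (q : Q) (X : Fin (N + 3) → Tm (sg Q N) V) (w : Tm (sg Q N) V) (v : V) :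
    v ∈ (kc q X w).vars ↔ (∃ j, v ∈ (X j).vars) ∨ v ∈ w.vars := by
  constructor
  · rintro ⟨i, h⟩
    induction i using Fin.lastCases (n := N + 3) with
    | last =>
      right
      have h2 := Fin.snoc_last (α := fun _ => Tm (sg Q N) V) (n := N + 3) w X
      rw [h2] at h
      exact h
    | cast j =>
      left
      have h2 := Fin.snoc_castSucc (α := fun _ => Tm (sg Q N) V) (n := N + 3) w X j
      rw [h2] at h
      exact ⟨j, h⟩
  · rintro (⟨j, h⟩ | h)
    · refine ⟨Fin.castSucc (n := N + 3) j, ?_⟩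
      have h2 := Fin.snoc_castSucc (α := fun _ => Tm (sg Q N) V) (n := N + 3) w X j
      rw [h2]
      exact h
    · refine ⟨Fin.last (N + 3), ?_⟩
      have h2 := Fin.snoc_last (α := fun _ => Tm (sg Q N) V) (n := N + 3) w X
      rw [h2]
      exact h

theorem vars_pt (q : Q) (b : Bool) (j : Fin (N + 3)) (v : ℕ)
    (h : v ∈ ((pt ins q b).2.2 j).vars) : ∃ k, v ∈ ((pt ins q b).1 k).vars := by
  cases hi : ins q with
  | inc r p =>
    rw [pt_inc hi] at *
    simp only at h ⊢
    by_cases hj : j = r
    · subst hj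
      rw [Function.update_self, vars_ks] at h
      exact ⟨j, h⟩
    · rw [Function.update_of_ne hj] at h
      exact ⟨j, h⟩
  | dec r p p' =>
    cases b with
    | true =>
      rw [pt_dp hi] at *
      simp only at h ⊢
      refine ⟨j, ?_⟩
      by_cases hj : j = r
      · subst hj
        rw [Function.update_self, vars_ks]
        exact h
      · rw [Function.update_of_ne hj]
        exact h
    | false =>
      rw [pt_dz hi] at *
      exact ⟨j, h⟩
  | jmp p =>
    rw [pt_jmp hi] at *
    exact ⟨j, h⟩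

theorem RuleOk_app {S : Sig} (f : S.F) (ts : Fin (S.ar f) → Tm S ℕ) (r : Tm S ℕ)
    (h : r.vars ⊆ (Tm.app f ts).vars) : RuleOk (Tm.app f ts, r) :=
  ⟨fun v hv => (by cases hv), h⟩

theorem RR_ok (ρ : Tm (sg Q N) ℕ × Tm (sg Q N) ℕ) (h : ρ ∈ RR ins q0 qf) : RuleOk ρ := by
  obtain ⟨k, rfl⟩ := h
  have hde : RuleOk ((kde, kka) : Tm (sg Q N) ℕ × Tm (sg Q N) ℕ) :=
    RuleOk_app _ _ _ (by rw [vars_kka]; exact Set.empty_subset _)
  cases k with
  | trunc => exact RuleOk_app _ _ _ (by rw [vars_kz]; exact Set.empty_subset _)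
  | sbad l => exact RuleOk_app _ _ _ (by rw [vars_kde]; exact Set.empty_subset _)
  | regbad q j l => exact RuleOk_app _ _ _ (by rw [vars_kde]; exact Set.empty_subset _)
  | tlbad q b => exact RuleOk_app _ _ _ (by rw [vars_kde]; exact Set.empty_subset _)
  | inibad q =>
    by_cases h : q ≠ q0
    · simp only [lr, if_pos h]
      exact RuleOk_app _ _ _ (by rw [vars_kde]; exact Set.empty_subset _)
    · simp only [lr, if_neg h]
      exact hde
  | inibad' j =>
    by_cases h : 2 ≤ (j : ℕ)
    · simp only [lr, if_pos h]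
      exact RuleOk_app _ _ _ (by rw [vars_kde]; exact Set.empty_subset _)
    · simp only [lr, if_neg h]
      exact hde
  | ini =>
    refine RuleOk_app _ _ _ ?_
    rw [vars_kbe]
    intro v hv
    exact (mem_vars_kc _ _ _ _).2 (Or.inl ⟨_, hv⟩)
  | viol q q' b =>
    by_cases h : q ≠ (pt ins q' b).2.1
    · simp only [lr, if_pos h]
      exact RuleOk_app _ _ _ (by rw [vars_kde]; exact Set.empty_subset _)
    · simp only [lr, if_neg h]
      exact hde
  | extr q q' b j =>
    refine RuleOk_app _ _ _ ?_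
    rw [vars_kA]
    rintro v (hv | hv)
    · exact (mem_vars_kc _ _ _ _).2 (Or.inl ⟨_, hv⟩)
    · refine (mem_vars_kc _ _ _ _).2 (Or.inr ((mem_vars_kc _ _ _ _).2 (Or.inl ?_)))
      exact vars_pt q' b j v hv
  | A1 =>
    refine RuleOk_app _ _ _ ?_
    rw [vars_kal]
    intro v hv
    exact (Set.ext_iff.1 (vars_kA _ _) v).2 (Or.inl hv)
  | A2 =>
    refine RuleOk_app _ _ _ ?_
    rw [vars_kal]
    intro v hv
    exact (Set.ext_iff.1 (vars_kA _ _) v).2 (Or.inr hv)
  | A3 => exact RuleOk_app _ _ _ (by rw [vars_kde]; exact Set.empty_subset _)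
  | alc i =>
    refine RuleOk_app _ _ _ ?_
    rw [vars_kal]
    intro v hv
    exact (Set.ext_iff.1 (vars_kal i _) v).2 hv
  | bec i =>
    refine RuleOk_app _ _ _ ?_
    rw [vars_kbe]
    intro v hv
    exact (Set.ext_iff.1 (vars_kbe i _) v).2 hv
  | als =>
    refine RuleOk_app _ _ _ ?_
    rw [vars_kbe]
    intro v hv
    refine (Set.ext_iff.1 (vars_kal 0 _) v).2 ?_
    rw [vars_ks]
    exact hv
  | bes =>
    refine RuleOk_app _ _ _ ?_
    rw [vars_kal]
    intro v hv
    refine (Set.ext_iff.1 (vars_kbe 0 _) v).2 ?_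
    rw [vars_ks]
    exact hv
  | alz => exact RuleOk_app _ _ _ (by rw [vars_kde]; exact Set.empty_subset _)
  | bez => exact RuleOk_app _ _ _ (by rw [vars_kde]; exact Set.empty_subset _)
  | dk => exact hde
  | kk => exact RuleOk_app _ _ _ (by rw [vars_kka]; exact Set.empty_subset _)
  | S1 =>
    refine RuleOk_app _ _ _ ?_
    intro v hv
    exact (Set.ext_iff.1 (vars_kS _ _) v).2 (Or.inl hv)
  | S2n b =>
    refine RuleOk_app _ _ _ ?_
    intro v hv
    exact (Set.ext_iff.1 (vars_kS _ _) v).2 (Or.inr hv)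
  | S2e =>
    refine RuleOk_app _ _ _ ?_
    intro v hv
    exact (Set.ext_iff.1 (vars_kS _ _) v).2 (Or.inr hv)
  | S2c q =>
    by_cases h : q ≠ qf
    · simp only [lr, if_pos h]
      refine RuleOk_app _ _ _ ?_
      intro v hv
      exact (Set.ext_iff.1 (vars_kS _ _) v).2 (Or.inr hv)
    · simp only [lr, if_neg h]
      exact hde
  | S2f j =>
    refine RuleOk_app _ _ _ ?_
    intro v hv
    exact (Set.ext_iff.1 (vars_kS _ _) v).2 (Or.inr hv)
  | S3 => exact RuleOk_app _ _ _ (by rw [vars_kde]; exact Set.empty_subset _)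

end Pool.Agent.Q227.OR
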