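import Mathlib

/-!
# Evidence in a digraph
-/

set_option autoImplicit false

namespace Pool.Agent.Q227.OR

section
variable {α : Type} (r : α → α → Prop)

def E2 (y : α) : Prop := ∃ w1 w2, r y w1 ∧ r w1 w2 ∧ r w2 w2

def C2 (y : α) : Prop := ∃ w, r y w ∧ r w y

def C3 (y : α) : Prop := ∃ w1 w2, r y w1 ∧ r w1 w2 ∧ r w2 y

def Wr (y : α) : Prop :=
  ∃ a a1 a2, r y a ∧ r a a1 ∧ r a a2 ∧ C3 r a1 ∧ C3 r a2 ∧ r a2 a1

/-- `C3` or `C2` -/
def CC : Bool → α → Prop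
  | true => C3 r
  | false => C2 r

def NN : ℕ → Bool → α → Prop
  | 0, b, x => ∃ x', r x x' ∧ CC r b x'
  | k + 1, b, x => E2 r x ∨ ∃ x', r x x' ∧ CC r b x' ∧ NN k (!b) x'

def NI (n : ℕ) (y : α) : Prop := ∃ x, r y x ∧ C2 r x ∧ NN r n true x

def Ev (n : ℕ) (y : α) : Prop := E2 r y ∨ C2 r y ∨ C3 r y ∨ Wr r y ∨ NI r n y

/-- the matrix of the sentence -/
def Mx (n : ℕ) (y u : α) : Prop := Ev r n y ∨ ∃ t, r t u ∧ r t y

end

section
variable {α β : Type} {r : α → α → Prop} {r' : β → β → Prop} (f : α → β)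
  (hf : ∀ a b, r a b → r' (f a) (f b))
include hf

theorem E2.map {y : α} (h : E2 r y) : E2 r' (f y) := by
  obtain ⟨w1, w2, h1, h2, h3⟩ := h
  exact ⟨f w1, f w2, hf _ _ h1, hf _ _ h2, hf _ _ h3⟩

theorem C2.map {y : α} (h : C2 r y) : C2 r' (f y) := by
  obtain ⟨w1, h1, h2⟩ := h
  exact ⟨f w1, hf _ _ h1, hf _ _ h2⟩

theorem C3.map {y : α} (h : C3 r y) : C3 r' (f y) := by
  obtain ⟨w1, w2, h1, h2, h3⟩ := h
  exact ⟨f w1, f w2, hf _ _ h1, hf _ _ h2, hf _ _ h3⟩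

theorem Wr.map {y : α} (h : Wr r y) : Wr r' (f y) := by
  obtain ⟨a, a1, a2, h1, h2, h3, h4, h5, h6⟩ := h
  exact ⟨f a, f a1, f a2, hf _ _ h1, hf _ _ h2, hf _ _ h3, h4.map f hf, h5.map f hf, hf _ _ h6⟩

theorem CC.map {b : Bool} {y : α} (h : CC r b y) : CC r' b (f y) := by
  cases b
  · exact C2.map f hf h
  · exact C3.map f hf h

theorem NN.map (k : ℕ) : ∀ {b : Bool} {y : α}, NN r k b y → NN r' k b (f y) := by
  induction k with
  | zero =>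
    rintro b y ⟨x', h1, h2⟩
    exact ⟨f x', hf _ _ h1, CC.map f hf h2⟩
  | succ k ih =>
    rintro b y (h | ⟨x', h1, h2, h3⟩)
    · exact Or.inl (h.map f hf)
    · exact Or.inr ⟨f x', hf _ _ h1, CC.map f hf h2, ih h3⟩

theorem NI.map {n : ℕ} {y : α} (h : NI r n y) : NI r' n (f y) := by
  obtain ⟨x, h1, h2, h3⟩ := h
  exact ⟨f x, hf _ _ h1, h2.map f hf, NN.map f hf n h3⟩

theorem Ev.map {n : ℕ} {y : α} (h : Ev r n y) : Ev r' n (f y) := by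
  rcases h with h | h | h | h | h
  · exact Or.inl (h.map f hf)
  · exact Or.inr (Or.inl (h.map f hf))
  · exact Or.inr (Or.inr (Or.inl (h.map f hf)))
  · exact Or.inr (Or.inr (Or.inr (Or.inl (h.map f hf))))
  · exact Or.inr (Or.inr (Or.inr (Or.inr (h.map f hf))))

theorem Mx.map {n : ℕ} {y u : α} (h : Mx r n y u) : Mx r' n (f y) (f u) := by
  rcases h with h | ⟨t, h1, h2⟩
  · exact Or.inl (h.map f hf)
  · exact Or.inr ⟨f t, hf _ _ h1, hf _ _ h2⟩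

end

end Pool.Agent.Q227.OR
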