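import Pool.Agent.Q227.OR.Phi
import Pool.Agent.Q227.OR.Emb2

/-!
# Undecidability of the positive theory
-/

set_option autoImplicit false

namespace Pool.Agent.Q227.OR

open Pool.Agent.Helper273.Machine (MI mstep st0)

/-- a partial function with undecidable domain -/
def uf (n : ℕ) : Part ℕ := (Denumerable.ofNat Nat.Partrec.Code n).eval 0

theorem uf_partrec : Partrec uf := by
  have h := Nat.Partrec.Code.eval_part.comp
    (Computable.ofNat Nat.Partrec.Code) (Computable.const (0 : ℕ))
  exact h

theorem uf_not_computable : ¬ ComputablePred (fun n => (uf n).Dom) := by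
  intro h
  refine ComputablePred.halting_problem 0 ?_
  have : ManyOneReducible (fun c : Nat.Partrec.Code => (Nat.Partrec.Code.eval c 0).Dom)
      (fun n => (uf n).Dom) := by
    refine ⟨Encodable.encode, Computable.encode, ?_⟩
    intro c
    simp [uf, Denumerable.ofNat_encode]
  exact ComputablePred.computable_of_manyOneReducible this h

theorem main_result : ∃ (S : Sig) (R : Set (Tm S ℕ × Tm S ℕ)),
    R.Finite ∧ (∀ ρ ∈ R, RuleOk ρ) ∧ ¬ DecidableOn R PF.AllAllEx := by
  obtain ⟨N, L, ins, -, hM⟩ := Pool.Agent.Helper273.Machine.exists_machine {n | (uf n).Dom}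
    (Partrec.dom_re uf_partrec)
  refine ⟨sg (Fin (L + 1)) N, RR ins 0 (Fin.last L), RR_finite, fun ρ => RR_ok ρ, ?_⟩
  rintro ⟨f, hf, h⟩
  have key : ∀ n, True' (RR ins 0 (Fin.last L)) (Phi n) ↔ ¬ (uf n).Dom := by
    intro n
    have h1 := (Mx_ground (ins := ins) (q0 := 0) (qf := Fin.last L) n).trans
      (main ins 0 (Fin.last L) n)
    have h2 := hM n
    rw [Set.mem_setOf_eq] at h2
    rw [h2, ← h1]
    constructor
    · intro h3
      exact (Phi_holds _ n _).1 (h3 fun _ => kz)
    · intro h3 v
      exact (Phi_holds _ n _).2 h3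
  apply uf_not_computable
  have hnot : ComputablePred (fun n => ¬ (uf n).Dom) := by
    refine ComputablePred.computable_iff.2 ⟨fun n => f (Phi n).code,
      hf.comp Phi_primrec.to_comp, ?_⟩
    funext n
    exact propext (((h (Phi n) (Phi_fv n) (Phi_allAllEx n)).trans (key n)).symm)
  have := hnot.not
  simpa using this

end Pool.Agent.Q227.OR
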