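import Pool.Agent.Q227.OR.Defs
import Pool.Agent.Q227.OR.Ev

/-!
# The sentences
-/

set_option autoImplicit false

namespace Pool.Agent.Q227.OR

open Function (update)

def E2f (i : ℕ) : PF := .ex 4 (.ex 5 (.and (.rel i 4) (.and (.rel 4 5) (.rel 5 5))))
def C2f (i : ℕ) : PF := .ex 4 (.and (.rel i 4) (.rel 4 i))
def C3f (i : ℕ) : PF := .ex 4 (.ex 5 (.and (.rel i 4) (.and (.rel 4 5) (.rel 5 i))))
def Wrf : PF := .ex 2 (.ex 3 (.ex 6 (.and (.rel 0 2) (.and (.rel 2 3) (.and (.rel 2 6)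
  (.and (C3f 3) (.and (C3f 6) (.rel 6 3))))))))

def CCf : Bool → ℕ → PF
  | true, i => C3f i
  | false, i => C2f i

def vn : Bool → ℕ
  | true => 2
  | false => 3

def NNf : ℕ → Bool → PF
  | 0, b => .ex (vn !b) (.and (.rel (vn b) (vn !b)) (CCf b (vn !b)))
  | k + 1, b => .or (E2f (vn b)) (.ex (vn !b) (.and (.rel (vn b) (vn !b))
      (.and (CCf b (vn !b)) (NNf k !b))))

def NIf (n : ℕ) : PF := .ex 2 (.and (.rel 0 2) (.and (C2f 2) (NNf n true)))

def Evf (n : ℕ) : PF := .or (E2f 0) (.or (C2f 0) (.or (C3f 0) (.or Wrf (NIf n))))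

/-- the sentence -/
def Phi (n : ℕ) : PF :=
  .all 0 (.all 1 (.or (Evf n) (.ex 2 (.and (.rel 2 1) (.rel 2 0)))))

section
variable {α : Type} (r : α → α → Prop)

theorem E2f_holds {i : ℕ} (h4 : i ≠ 4) (h5 : i ≠ 5) (v : ℕ → α) :
    (E2f i).Holds r v ↔ E2 r (v i) := by
  simp [E2f, PF.Holds, E2, Function.update_apply, h4, h5]

theorem C2f_holds {i : ℕ} (h4 : i ≠ 4) (v : ℕ → α) :
    (C2f i).Holds r v ↔ C2 r (v i) := by
  simp [C2f, PF.Holds, C2, Function.update_apply, h4]

theorem C3f_holds {i : ℕ} (h4 : i ≠ 4) (h5 : i ≠ 5) (v : ℕ → α) :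
    (C3f i).Holds r v ↔ C3 r (v i) := by
  simp [C3f, PF.Holds, C3, Function.update_apply, h4, h5]

theorem Wrf_holds (v : ℕ → α) : Wrf.Holds r v ↔ Wr r (v 0) := by
  simp only [Wrf, PF.Holds, Wr]
  simp only [C3f_holds r (show (3 : ℕ) ≠ 4 by decide) (show (3 : ℕ) ≠ 5 by decide),
    C3f_holds r (show (6 : ℕ) ≠ 4 by decide) (show (6 : ℕ) ≠ 5 by decide)]
  simp [Function.update_apply]

theorem CCf_holds {i : ℕ} (h4 : i ≠ 4) (h5 : i ≠ 5) (b : Bool) (v : ℕ → α) :
    (CCf b i).Holds r v ↔ CC r b (v i) := by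
  cases b with
  | true => exact C3f_holds r h4 h5 v
  | false => exact C2f_holds r h4 v

theorem vn4 (b : Bool) : vn b ≠ 4 := by cases b <;> decide
theorem vn5 (b : Bool) : vn b ≠ 5 := by cases b <;> decide
theorem vnn (b : Bool) : vn b ≠ vn !b := by cases b <;> decide

theorem NNf_holds (k : ℕ) : ∀ (b : Bool) (v : ℕ → α),
    (NNf k b).Holds r v ↔ NN r k b (v (vn b)) := by
  induction k with
  | zero =>
    intro b v
    simp only [NNf, NN, PF.Holds, CCf_holds r (vn4 _) (vn5 _), Function.update_self,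
      Function.update_of_ne (vnn b)]
  | succ k ih =>
    intro b v
    simp only [NNf, NN, PF.Holds, CCf_holds r (vn4 _) (vn5 _), Function.update_self,
      Function.update_of_ne (vnn b), E2f_holds r (vn4 _) (vn5 _), ih]

theorem NIf_holds (n : ℕ) (v : ℕ → α) : (NIf n).Holds r v ↔ NI r n (v 0) := by
  simp only [NIf, PF.Holds, NI, NNf_holds, C2f_holds r (show (2 : ℕ) ≠ 4 by decide)]
  simp [Function.update_apply, vn]

theorem Evf_holds (n : ℕ) (v : ℕ → α) : (Evf n).Holds r v ↔ Ev r n (v 0) := by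
  simp only [Evf, PF.Holds, Ev, NIf_holds, Wrf_holds,
    C2f_holds r (show (0 : ℕ) ≠ 4 by decide),
    C3f_holds r (show (0 : ℕ) ≠ 4 by decide) (show (0 : ℕ) ≠ 5 by decide),
    E2f_holds r (show (0 : ℕ) ≠ 4 by decide) (show (0 : ℕ) ≠ 5 by decide)]

theorem Phi_holds (n : ℕ) (v : ℕ → α) : (Phi n).Holds r v ↔ ∀ y u, Mx r n y u := by
  simp only [Phi, PF.Holds, Mx, Evf_holds]
  simp [Function.update_apply]

end

theorem CCf_noAll (b : Bool) (i : ℕ) : (CCf b i).NoAll := by
  cases b <;> simp [CCf, C2f, C3f, PF.NoAll]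

theorem NNf_noAll (k : ℕ) : ∀ b, (NNf k b).NoAll := by
  induction k with
  | zero => intro b; simp [NNf, PF.NoAll, CCf_noAll]
  | succ k ih => intro b; simp [NNf, PF.NoAll, CCf_noAll, E2f, ih]

theorem Phi_allAllEx (n : ℕ) : (Phi n).AllAllEx := by
  refine ⟨0, 1, _, rfl, ?_⟩
  simp [Evf, PF.NoAll, E2f, C2f, C3f, Wrf, NIf, NNf_noAll]

theorem E2f_fv (i : ℕ) : (E2f i).fv ⊆ {i} := by
  intro x
  simp only [E2f, PF.fv, Set.mem_diff, Set.mem_union, Set.mem_insert_iff, Set.mem_singleton_iff]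
  omega

theorem C2f_fv (i : ℕ) : (C2f i).fv ⊆ {i} := by
  intro x
  simp only [C2f, PF.fv, Set.mem_diff, Set.mem_union, Set.mem_insert_iff, Set.mem_singleton_iff]
  omega

theorem C3f_fv (i : ℕ) : (C3f i).fv ⊆ {i} := by
  intro x
  simp only [C3f, PF.fv, Set.mem_diff, Set.mem_union, Set.mem_insert_iff, Set.mem_singleton_iff]
  omega

theorem CCf_fv (b : Bool) (i : ℕ) : (CCf b i).fv ⊆ {i} := by
  cases b
  · exact C2f_fv i
  · exact C3f_fv i

theorem NNf_fv (k : ℕ) : ∀ b, (NNf k b).fv ⊆ {vn b} := by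
  induction k with
  | zero =>
    intro b x hx
    simp only [NNf, PF.fv, Set.mem_diff, Set.mem_union, Set.mem_insert_iff,
      Set.mem_singleton_iff] at hx
    obtain ⟨(h | h) | h, h'⟩ := hx
    · exact h
    · exact absurd h h'
    · exact absurd (CCf_fv _ _ h) h'
  | succ k ih =>
    intro b x hx
    simp only [NNf, PF.fv, Set.mem_diff, Set.mem_union, Set.mem_insert_iff,
      Set.mem_singleton_iff] at hx
    rcases hx with h | ⟨(h | h) | h | h, h'⟩
    · exact E2f_fv _ h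
    · exact h
    · exact absurd h h'
    · exact absurd (CCf_fv _ _ h) h'
    · exact absurd (ih _ h) h'

theorem Wrf_fv : Wrf.fv ⊆ {0} := by
  intro x hx
  simp only [Wrf, PF.fv, Set.mem_diff, Set.mem_union, Set.mem_insert_iff,
    Set.mem_singleton_iff] at hx
  obtain ⟨⟨⟨h, h1⟩, h2⟩, h3⟩ := hx
  rcases h with h | h | h | h | h | h
  · rcases h with h | h
    · exact h
    · exact absurd h h3
  · rcases h with h | h
    · exact absurd h h3
    · exact absurd h h2
  · rcases h with h | h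
    · exact absurd h h3
    · exact absurd h h1
  · exact absurd (C3f_fv _ h) h2
  · exact absurd (C3f_fv _ h) h1
  · rcases h with h | h
    · exact absurd h h1
    · exact absurd h h2

theorem NIf_fv (n : ℕ) : (NIf n).fv ⊆ {0} := by
  intro x hx
  simp only [NIf, PF.fv, Set.mem_diff, Set.mem_union, Set.mem_insert_iff,
    Set.mem_singleton_iff] at hx
  obtain ⟨(h | h) | h | h, h'⟩ := hx
  · exact h
  · exact absurd h h'
  · exact absurd (C2f_fv _ h) h'
  · exact absurd (NNf_fv _ _ h) h'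

theorem Phi_fv (n : ℕ) : (Phi n).fv = ∅ := by
  ext x
  simp only [Set.mem_empty_iff_false, iff_false]
  intro hx
  simp only [Phi, Evf, PF.fv, Set.mem_diff, Set.mem_union, Set.mem_insert_iff,
    Set.mem_singleton_iff] at hx
  obtain ⟨⟨h, h1⟩, h0⟩ := hx
  rcases h with (h | h | h | h | h) | ⟨h, h2⟩
  · exact h0 (E2f_fv _ h)
  · exact h0 (C2f_fv _ h)
  · exact h0 (C3f_fv _ h)
  · exact h0 (Wrf_fv h)
  · exact h0 (NIf_fv _ h)
  · omega

/-! ### computability -/

/-- codes of both formulas of the chain -/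
def cN (k : ℕ) : ℕ × ℕ := ((NNf k true).code, (NNf k false).code)

def Fb (b : Bool) (c : ℕ) : ℕ :=
  Nat.pair 3 (Nat.pair (E2f (vn b)).code (Nat.pair 5 (Nat.pair (vn !b) (Nat.pair 2
    (Nat.pair (PF.rel (vn b) (vn !b)).code (Nat.pair 2 (Nat.pair (CCf b (vn !b)).code c)))))))

theorem Fb_primrec (b : Bool) : Primrec (Fb b) := by
  unfold Fb
  have P := @Primrec₂.natPair
  have C : ∀ k : ℕ, Primrec (fun _ : ℕ => k) := fun k => Primrec.const k
  exact P.comp (C _) (P.comp (C _) (P.comp (C _) (P.comp (C _) (P.comp (C _) (P.comp (C _)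
    (P.comp (C _) (P.comp (C _) Primrec.id)))))))

theorem cN_primrec : Primrec cN := by
  have h : Primrec (Nat.rec (motive := fun _ => ℕ × ℕ) (cN 0)
      (fun _ x => (Fb true x.2, Fb false x.1))) := by
    refine Primrec.nat_rec₁ (f := fun _ x => (Fb true x.2, Fb false x.1)) (cN 0) ?_
    exact Primrec.pair ((Fb_primrec true).comp (Primrec.snd.comp Primrec.snd))
      ((Fb_primrec false).comp (Primrec.fst.comp Primrec.snd))
  refine h.of_eq fun n => ?_
  induction n with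
  | zero => rfl
  | succ n ih =>
    simp only [ih]
    rfl

theorem Phi_primrec : Primrec fun n => (Phi n).code := by
  have P := @Primrec₂.natPair
  have C : ∀ k : ℕ, Primrec (fun _ : ℕ => k) := fun k => Primrec.const k
  have h1 : Primrec fun n => (NIf n).code :=
    P.comp (C _) (P.comp (C _) (P.comp (C _) (P.comp (C _) (P.comp (C _) (P.comp (C _)
      (Primrec.fst.comp cN_primrec))))))
  have h2 : Primrec fun n => (Evf n).code :=
    P.comp (C _) (P.comp (C _) (P.comp (C _) (P.comp (C _) (P.comp (C _) (P.comp (C _)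
      (P.comp (C _) (P.comp (C _) h1)))))))
  exact P.comp (C _) (P.comp (C _) (P.comp (C _) (P.comp (C _) (P.comp (C _)
    (P.comp h2 (C _))))))

end Pool.Agent.Q227.OR
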