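import Pool.Agent.Q227.OR.Conc

/-!
# Correct halting histories have no evidence
-/

set_option autoImplicit false

namespace Pool.Agent.Q227.OR

open Pool.Agent.Helper273.Machine (MI mstep st0)
open Function (update)

variable {Q : Type} {N : ℕ} {ins : Q → MI (N + 3) Q} {q0 qf : Q}

/-- size of a head -/
def muh : Hd → ℕ
  | .e => 1
  | .A a b => a + b + 3
  | .al _ a => a + 2
  | .be _ a => a + 2
  | .de => 1
  | .ka => 0

/-- size -/
def mu : List (Cfg Q N) → Hd → ℕ
  | [], h => muh h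
  | x :: C, h => 4 + (∑ j, x.2 j) + mu C h

/-- size preserving steps -/
inductive Neu : Hd → Hd → Prop
  | al (i a) : Neu (.al i a) (.al (i + 1) a)
  | be (i a) : Neu (.be i a) (.be (i + 1) a)
  | ka : Neu .ka .ka

theorem HS_mu {h h' : Hd} (s : HS h h') : muh h' < muh h ∨ Neu h h' := by
  cases s with
  | alc i a => exact Or.inr (.al i a)
  | bec i a => exact Or.inr (.be i a)
  | kk => exact Or.inr .ka
  | _ => left; simp only [muh]; omega

theorem sum_update_lt (x : Fin (N + 3) → ℕ) (j : Fin (N + 3)) {i : ℕ} (hi : i < x j) :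
    ∑ k, update x j i k < ∑ k, x k := by
  refine Finset.sum_lt_sum (fun k _ => ?_) ⟨j, Finset.mem_univ _, by simpa using hi⟩
  by_cases hk : k = j
  · subst hk; simp; omega
  · simp [hk]

theorem le_sum (x : Fin (N + 3) → ℕ) (j : Fin (N + 3)) : x j ≤ ∑ k, x k :=
  Finset.single_le_sum (f := x) (fun _ _ => Nat.zero_le _) (Finset.mem_univ j)

theorem mstep_le (y : Cfg Q N) (j : Fin (N + 3)) : (mstep ins y).2 j ≤ y.2 j + 1 := by
  unfold mstep
  cases ins y.1 with
  | inc r p =>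
    simp only
    by_cases hj : j = r
    · subst hj; simp
    · simp [hj]
  | dec r p p' =>
    simp only
    split_ifs
    · simp
    · by_cases hj : j = r
      · subst hj; simp; omega
      · simp [hj]
  | jmp p => simp

theorem SW_mu {C C' : List (Cfg Q N)} {h h' : Hd} (s : SW ins q0 C h C' h') :
    mu C' h' < mu C h ∨ (C' = C ∧ Neu h h') := by
  induction s with
  | hd s =>
    rcases HS_mu s with h | h
    · exact Or.inl h
    · exact Or.inr ⟨rfl, h⟩
  | reg j hi =>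
    left
    simp only [mu]
    have := sum_update_lt _ j hi
    omega
  | tl s ih =>
    rcases ih with ih | ⟨rfl, ih⟩
    · left; simp only [mu]; omega
    · exact Or.inr ⟨rfl, ih⟩
  | inibad _ => left; simp only [mu, muh]; omega
  | @ini x =>
    left
    simp only [mu, muh]
    have := le_sum x 0
    omega
  | viol _ => left; simp only [mu, muh]; omega
  | @extr q x y C h j =>
    left
    simp only [mu, muh]
    have h1 := le_sum x j
    have h2 := le_sum y.2 j
    have h3 := mstep_le (ins := ins) y j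
    omega

theorem muh_neu {h h' : Hd} (s : Neu h h') : muh h' = muh h := by
  cases s <;> rfl

theorem mu_congr {C : List (Cfg Q N)} {h h' : Hd} (s : muh h' = muh h) : mu C h' = mu C h := by
  induction C with
  | nil => exact s
  | cons x C ih => simp only [mu, ih]

theorem SW_mu' {C C' : List (Cfg Q N)} {h h' : Hd} (s : SW ins q0 C h C' h') :
    mu C' h' ≤ mu C h ∧ (mu C h ≤ mu C' h' → C' = C ∧ Neu h h') := by
  rcases SW_mu s with h1 | ⟨rfl, h1⟩
  · exact ⟨by omega, fun h2 => by omega⟩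
  · exact ⟨(mu_congr (muh_neu h1)).le, fun _ => ⟨rfl, h1⟩⟩

theorem Neu_cases {h h' : Hd} (s : Neu h h') : (h = .ka ∧ h' = .ka) ∨
    (∃ i a, h = .al i a ∧ h' = .al (i + 1) a) ∨ (∃ i a, h = .be i a ∧ h' = .be (i + 1) a) := by
  cases s with
  | al i a => exact Or.inr (Or.inl ⟨i, a, rfl, rfl⟩)
  | be i a => exact Or.inr (Or.inr ⟨i, a, rfl, rfl⟩)
  | ka => exact Or.inl ⟨rfl, rfl⟩

theorem loop_ka {C : List (Cfg Q N)} {h : Hd} (s : St ins q0 qf (tm C h) (tm C h)) :
    h = .ka := by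
  obtain ⟨C', h', e, s⟩ := St_tm s
  obtain ⟨rfl, rfl⟩ := tm_inj e
  obtain ⟨_, n⟩ := (SW_mu' s).2 le_rfl
  rcases Neu_cases n with ⟨h, _⟩ | ⟨i, a, h1, h2⟩ | ⟨i, a, h1, h2⟩
  · exact h
  · exfalso
    have := h1.symm.trans h2
    simp only [Hd.al.injEq, and_true] at this
    clear h1 h2
    revert i; decide
  · exfalso
    have := h1.symm.trans h2
    simp only [Hd.be.injEq, and_true] at this
    clear h1 h2
    revert i; decide

theorem C2_tm {C : List (Cfg Q N)} {h : Hd} (s : C2 (St ins q0 qf) (tm C h)) :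
    h = .ka ∨ ∃ i a, h = .be i a := by
  obtain ⟨w, s1, s2⟩ := s
  obtain ⟨C1, h1, rfl, t1⟩ := St_tm s1
  obtain ⟨C2, h2, e, t2⟩ := St_tm s2
  obtain ⟨rfl, rfl⟩ := tm_inj e
  obtain ⟨l1, e1⟩ := SW_mu' t1
  obtain ⟨l2, e2⟩ := SW_mu' t2
  obtain ⟨_, n1⟩ := e1 l2
  obtain ⟨_, n2⟩ := e2 l1
  rcases Neu_cases n1 with ⟨h, _⟩ | ⟨i, a, rfl, rfl⟩ | ⟨i, a, rfl, _⟩
  · exact Or.inl h
  · exfalso
    rcases Neu_cases n2 with ⟨h, _⟩ | ⟨j, b, h1, h2⟩ | ⟨j, b, h1, h2⟩
    · cases h
    · simp only [Hd.al.injEq] at h1 h2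
      obtain ⟨h1, _⟩ := h1
      obtain ⟨h2, _⟩ := h2
      subst h1
      revert h2
      clear * -
      revert i; decide
    · cases h1
  · exact Or.inr ⟨_, _, rfl⟩

theorem C3_tm {C : List (Cfg Q N)} {h : Hd} (s : C3 (St ins q0 qf) (tm C h)) :
    h = .ka ∨ ∃ i a, h = .al i a := by
  obtain ⟨w, w', s1, s2, s3⟩ := s
  obtain ⟨C1, h1, rfl, t1⟩ := St_tm s1
  obtain ⟨C2, h2, rfl, t2⟩ := St_tm s2
  obtain ⟨C3, h3, e, t3⟩ := St_tm s3
  obtain ⟨rfl, rfl⟩ := tm_inj e
  obtain ⟨l1, e1⟩ := SW_mu' t1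
  obtain ⟨l2, e2⟩ := SW_mu' t2
  obtain ⟨l3, e3⟩ := SW_mu' t3
  obtain ⟨_, n1⟩ := e1 (l3.trans l2)
  obtain ⟨_, n2⟩ := e2 (l1.trans l3)
  obtain ⟨_, n3⟩ := e3 (l2.trans l1)
  rcases Neu_cases n1 with ⟨h, _⟩ | ⟨i, a, rfl, _⟩ | ⟨i, a, rfl, rfl⟩
  · exact Or.inl h
  · exact Or.inr ⟨_, _, rfl⟩
  · exfalso
    rcases Neu_cases n2 with ⟨h, _⟩ | ⟨j, b, h1, _⟩ | ⟨j, b, h1, rfl⟩
    · cases h
    · cases h1
    · rcases Neu_cases n3 with ⟨h, _⟩ | ⟨k, c, h3, _⟩ | ⟨k, c, h3, h4⟩
      · cases h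
      · cases h3
      · simp only [Hd.be.injEq] at h1 h3 h4
        obtain ⟨h1, _⟩ := h1
        obtain ⟨h3, _⟩ := h3
        obtain ⟨h4, _⟩ := h4
        subst h1
        subst h3
        revert h4
        clear * -
        revert i; decide

/-- consecutive configurations, last one first -/
def Chn (ins : Q → MI (N + 3) Q) (C : List (Cfg Q N)) : Prop :=
  List.IsChain (fun x y => x = mstep ins y) C

/-- the head kinds reached from `e` -/
theorem SW_e {C C' : List (Cfg Q N)} {h h' : Hd} (s : SW ins q0 C h C' h') (he : h = .e) :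
    h' = .e ∨ h' = .de ∨ (∃ a b, h' = .A a b) ∨ ∃ a, h' = .be 0 a := by
  induction s with
  | hd s => subst he; cases s
  | reg _ _ => exact Or.inl he
  | tl _ ih => exact ih he
  | inibad _ => exact Or.inr (Or.inl rfl)
  | ini => exact Or.inr (Or.inr (Or.inr ⟨_, rfl⟩))
  | viol _ => exact Or.inr (Or.inl rfl)
  | extr j => exact Or.inr (Or.inr (Or.inl ⟨_, _, rfl⟩))

theorem SW_ka {C C' : List (Cfg Q N)} {h h' : Hd} (s : SW ins q0 C h C' h') (he : h' = .ka) :
    h = .ka ∨ h = .de := by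
  induction s with
  | hd s => subst he; cases s <;> simp
  | reg _ _ => exact Or.inl he
  | tl _ ih => exact ih he
  | inibad _ => cases he
  | ini => cases he
  | viol _ => cases he
  | extr j => cases he

theorem SW_de {C C' : List (Cfg Q N)} {h h' : Hd} (s : SW ins q0 C h C' h') (he : h' = .de)
    (hC : Chn ins C) (hh : h ≠ .e) : h = .de ∨ HS h .de := by
  induction s with
  | hd s => subst he; exact Or.inr s
  | reg _ _ => exact Or.inl he
  | tl _ ih => exact ih he (List.IsChain.tail hC) hh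
  | inibad _ => exact absurd rfl hh
  | ini => cases he
  | @viol q x y C h hv =>
    exfalso
    unfold Chn at hC
    rw [List.isChain_cons_cons] at hC
    exact hv (congrArg Prod.fst hC.1)
  | extr j => cases he

theorem SW_be_al {C C' : List (Cfg Q N)} {h h' : Hd} {i : Fin 3} {j : Fin 2} {a b : ℕ}
    (s : SW ins q0 C h C' h') (h1 : h = .be j a) (h2 : h' = .al i b) :
    C' = C ∧ a = b + 1 ∧ i = 0 := by
  induction s with
  | hd s =>
    subst h1
    subst h2
    cases s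
    exact ⟨rfl, rfl, rfl⟩
  | reg _ _ => rw [h1] at h2; cases h2
  | tl _ ih =>
    obtain ⟨e1, e2, e3⟩ := ih h1 h2
    exact ⟨by rw [e1], e2, e3⟩
  | inibad _ => cases h2
  | ini => cases h2
  | viol _ => cases h2
  | extr j => cases h2

theorem SW_al_be {C C' : List (Cfg Q N)} {h h' : Hd} {i : Fin 3} {j : Fin 2} {a b : ℕ}
    (s : SW ins q0 C h C' h') (h1 : h = .al i a) (h2 : h' = .be j b) :
    C' = C ∧ a = b + 1 ∧ j = 0 := by
  induction s with
  | hd s =>
    subst h1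
    subst h2
    cases s
    exact ⟨rfl, rfl, rfl⟩
  | reg _ _ => rw [h1] at h2; cases h2
  | tl _ ih =>
    obtain ⟨e1, e2, e3⟩ := ih h1 h2
    exact ⟨by rw [e1], e2, e3⟩
  | inibad _ => cases h2
  | ini => cases h1
  | viol _ => cases h2
  | extr j => cases h2

theorem SW_A_al {C C' : List (Cfg Q N)} {h h' : Hd} {i : Fin 3} {a b : ℕ}
    (s : SW ins q0 C h C' h') (h1 : h = .A a a) (h2 : h' = .al i b) :
    C' = C ∧ b = a ∧ i = 0 := by
  induction s with
  | hd s =>
    subst h1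
    subst h2
    cases s
    · exact ⟨rfl, rfl, rfl⟩
    · exact ⟨rfl, rfl, rfl⟩
  | reg _ _ => rw [h1] at h2; cases h2
  | tl _ ih =>
    obtain ⟨e1, e2, e3⟩ := ih h1 h2
    exact ⟨by rw [e1], e2, e3⟩
  | inibad _ => cases h2
  | ini => cases h1
  | viol _ => cases h2
  | extr j => cases h2

end Pool.Agent.Q227.OR
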