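import Pool.Agent.Q227.OR.Sound

/-!
# Correct halting histories have no evidence (2)
-/

set_option autoImplicit false

namespace Pool.Agent.Q227.OR

open Pool.Agent.Helper273.Machine (MI mstep st0)
open Function (update)

variable {Q : Type} {N : ℕ} {ins : Q → MI (N + 3) Q} {q0 qf : Q}

/-- correct histories for the input `n`, last configuration first -/
inductive VH (ins : Q → MI (N + 3) Q) (q0 : Q) (n : ℕ) : List (Cfg Q N) → Prop
  | init (k : ℕ) : VH ins q0 n [(q0, st0 (N + 3) n k)]
  | step (y C) : VH ins q0 n (y :: C) → VH ins q0 n (mstep ins y :: y :: C)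

theorem VH.chn {n : ℕ} {C : List (Cfg Q N)} (h : VH ins q0 n C) : Chn ins C := by
  induction h with
  | init k => exact List.isChain_singleton _
  | step y C _ ih =>
    unfold Chn at *
    rw [List.isChain_cons_cons]
    exact ⟨rfl, ih⟩

theorem chn_dropLast {C : List (Cfg Q N)} (h : Chn ins C) : Chn ins C.dropLast := by
  induction C with
  | nil => exact h
  | cons x C ih =>
    cases C with
    | nil => exact List.isChain_nil
    | cons y C =>
      cases C with
      | nil => exact List.isChain_singleton _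
      | cons w C =>
        unfold Chn at *
        rw [List.isChain_cons_cons] at h
        have h1 := ih h.2
        change List.IsChain _ (x :: y :: (w :: C).dropLast)
        rw [List.isChain_cons_cons]
        exact ⟨h.1, h1⟩

theorem st0_zero (n k : ℕ) : st0 (N + 3) n k 0 = n := by
  simp [st0]

theorem SW_VH {n : ℕ} {C C' : List (Cfg Q N)} {h h' : Hd} (hC : VH ins q0 n C)
    (s : SW ins q0 C h C' h') (he : h = .e) :
    h' = .e ∨ (∃ a, h' = .A a a) ∨ (h' = .be 0 n ∧ C' = C.dropLast) := by
  induction hC generalizing C' h' with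
  | init k =>
    subst he
    generalize hD : [(q0, st0 (N + 3) n k)] = D at s
    generalize hh : Hd.e = h at s
    cases s with
    | hd s => cases hD
    | reg _ _ => exact Or.inl rfl
    | tl s =>
      simp only [List.cons.injEq] at hD
      obtain ⟨_, rfl⟩ := hD
      subst hh
      cases s with
      | hd s => cases s
    | @inibad q x s =>
      exfalso
      simp only [List.cons.injEq, Prod.mk.injEq, and_true] at hD
      obtain ⟨rfl, rfl⟩ := hD
      rcases s with s | ⟨j, h1, h2⟩
      · exact s rfl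
      · unfold st0 at h2
        rw [if_neg (by omega), if_neg (by omega)] at h2
        omega
    | @ini x =>
      simp only [List.cons.injEq, Prod.mk.injEq, and_true, true_and] at hD
      subst hD
      right; right
      exact ⟨by rw [st0_zero], rfl⟩
    | viol _ => simp at hD
    | extr _ => simp at hD
  | step y C hC ih =>
    subst he
    generalize hD : mstep ins y :: y :: C = D at s
    generalize hh : Hd.e = h at s
    cases s with
    | hd s => cases hD
    | reg _ _ => exact Or.inl rfl
    | tl s =>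
      simp only [List.cons.injEq] at hD
      obtain ⟨rfl, rfl⟩ := hD
      subst hh
      rcases ih s with h | h | ⟨h1, h2⟩
      · exact Or.inl h
      · exact Or.inr (Or.inl h)
      · refine Or.inr (Or.inr ⟨h1, ?_⟩)
        rw [h2]
        simp
    | inibad _ => simp at hD
    | ini => simp at hD
    | @viol q x y' C' h hv =>
      exfalso
      simp only [List.cons.injEq] at hD
      obtain ⟨h1, rfl, _⟩ := hD
      exact hv (congrArg Prod.fst h1).symm
    | @extr q x y' C' h j =>
      simp only [List.cons.injEq] at hD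
      obtain ⟨h1, rfl, _⟩ := hD
      rw [h1]
      exact Or.inr (Or.inl ⟨_, rfl⟩)

/-- head of the chain of strips -/
def hb : Bool → ℕ → Hd
  | true, k => .be 0 k
  | false, k => .al 0 k

theorem not_CC {C : List (Cfg Q N)} {h : Hd} {b : Bool} (s : CC (St ins q0 qf) b (tm C h)) :
    h = .ka ∨ (b = true ∧ ∃ i a, h = .al i a) ∨ (b = false ∧ ∃ i a, h = .be i a) := by
  cases b with
  | true => rcases C3_tm s with h | h
            · exact Or.inl h
            · exact Or.inr (Or.inl ⟨rfl, h⟩)
  | false => rcases C2_tm s with h | h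
             · exact Or.inl h
             · exact Or.inr (Or.inr ⟨rfl, h⟩)

/-- a successor of the other kind is the strip -/
theorem strip {C : List (Cfg Q N)} {b : Bool} {k : ℕ} {t : T Q N}
    (s : St ins q0 qf (tm C (hb b k)) t) (ht : CC (St ins q0 qf) b t) :
    ∃ k', k = k' + 1 ∧ t = tm C (hb (!b) k') := by
  obtain ⟨C', h', rfl, s'⟩ := St_tm s
  rcases not_CC ht with h | ⟨rfl, i, a, rfl⟩ | ⟨rfl, i, a, rfl⟩
  · rcases SW_ka s' h with h | h <;> cases b <;> cases h
  · obtain ⟨rfl, rfl, rfl⟩ := SW_be_al s' rfl rfl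
    exact ⟨a, rfl, rfl⟩
  · obtain ⟨rfl, rfl, rfl⟩ := SW_al_be s' rfl rfl
    exact ⟨a, rfl, rfl⟩

theorem not_NN (k : ℕ) : ∀ (b : Bool) {C : List (Cfg Q N)}, Chn ins C →
    ¬ NN (St ins q0 qf) k b (tm C (hb b k)) := by
  induction k with
  | zero =>
    rintro b C hC ⟨x, h1, h2⟩
    obtain ⟨k', h, _⟩ := strip h1 h2
    omega
  | succ k ih =>
    rintro b C hC (⟨w1, w2, s1, s2, s3⟩ | ⟨x, h1, h2, h3⟩)
    · obtain ⟨C1, h1, rfl, t1⟩ := St_tm s1
      obtain ⟨C2, h2, rfl, t2⟩ := St_tm s2
      have e2 := loop_ka s3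
      rcases SW_ka t2 e2 with h | h
      · rcases SW_ka t1 h with h | h <;> cases b <;> cases h
      · rcases SW_de t1 h hC (by cases b <;> simp [hb]) with h | h
        · cases b <;> cases h
        · cases b <;> cases h
    · obtain ⟨k', h, rfl⟩ := strip h1 h2
      have : k = k' := by omega
      subst this
      exact ih _ hC h3

theorem sound {n : ℕ} {C : List (Cfg Q N)} (hC : VH ins q0 n C) :
    ¬ Ev (St ins q0 qf) n (tm C .e) := by
  rintro (h | h | h | h | h)
  · obtain ⟨w1, w2, s1, s2, s3⟩ := h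
    obtain ⟨C1, h1, rfl, t1⟩ := St_tm s1
    obtain ⟨C2, h2, rfl, t2⟩ := St_tm s2
    have e2 := loop_ka s3
    rcases SW_ka t2 e2 with h | h <;> subst h <;>
      rcases SW_VH hC t1 rfl with h | ⟨a, h⟩ | ⟨h, _⟩ <;> cases h
  · rcases C2_tm h with h | ⟨i, a, h⟩ <;> cases h
  · rcases C3_tm h with h | ⟨i, a, h⟩ <;> cases h
  · obtain ⟨a, a1, a2, s0, s1, s2, c1, c2, s3⟩ := h
    obtain ⟨Ca, ha, rfl, t0⟩ := St_tm s0
    obtain ⟨C1, h1, rfl, t1⟩ := St_tm s1
    obtain ⟨C2, h2, rfl, t2⟩ := St_tm s2
    have e1 := C3_tm c1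
    have e2 := C3_tm c2
    rcases SW_VH hC t0 rfl with h | ⟨a, h⟩ | ⟨h, _⟩
    · subst h
      rcases SW_e t1 rfl with h | h | ⟨_, _, h⟩ | ⟨_, h⟩ <;> subst h <;>
        rcases e1 with h | ⟨_, _, h⟩ <;> cases h
    · subst h
      have f1 : h1 ≠ .ka := by
        intro h
        rcases SW_ka t1 h with h | h <;> cases h
      have f2 : h2 ≠ .ka := by
        intro h
        rcases SW_ka t2 h with h | h <;> cases h
      rcases e1 with h | ⟨i, b, rfl⟩
      · exact f1 h
      rcases e2 with h | ⟨j, c, rfl⟩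
      · exact f2 h
      obtain ⟨rfl, rfl, rfl⟩ := SW_A_al t1 rfl rfl
      obtain ⟨rfl, rfl, rfl⟩ := SW_A_al t2 rfl rfl
      cases loop_ka s3
    · subst h
      have f1 : h1 ≠ .ka := by
        intro h
        rcases SW_ka t1 h with h | h <;> cases h
      have f2 : h2 ≠ .ka := by
        intro h
        rcases SW_ka t2 h with h | h <;> cases h
      rcases e1 with h | ⟨i, b, rfl⟩
      · exact f1 h
      rcases e2 with h | ⟨j, c, rfl⟩
      · exact f2 h
      obtain ⟨rfl, hb, rfl⟩ := SW_be_al t1 rfl rfl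
      obtain ⟨rfl, hc, rfl⟩ := SW_be_al t2 rfl rfl
      have : b = c := by omega
      subst this
      cases loop_ka s3
  · obtain ⟨x, s0, c0, hN⟩ := h
    obtain ⟨C0, h0, rfl, t0⟩ := St_tm s0
    rcases SW_VH hC t0 rfl with h | ⟨a, h⟩ | ⟨h, h'⟩
    · subst h
      rcases C2_tm c0 with h | ⟨_, _, h⟩ <;> cases h
    · subst h
      rcases C2_tm c0 with h | ⟨_, _, h⟩ <;> cases h
    · subst h
      subst h'
      refine not_NN n true ?_ hN
      exact chn_dropLast hC.chn

theorem pred_ka {t : T Q N} (s : St ins q0 qf t .ka) : t = .de ∨ t = .ka ∨ ∃ b, t = .S .ka b := by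
  rcases s with ⟨s⟩
  generalize hk : (T.ka : T Q N) = k at s
  cases s with
  | dk => exact Or.inl rfl
  | kk => exact Or.inr (Or.inl rfl)
  | S1 _ b => exact Or.inr (Or.inr ⟨b, by rw [← hk]⟩)
  | S2 a b h =>
    exfalso
    subst hk
    rcases h with (h | ⟨_, h⟩) | h | ⟨_, _, _, h, _⟩ | ⟨_, _, _, _, h, _⟩ <;> cases h
  | _ => cases hk

theorem not_common {C : List (Cfg Q N)} {h : Hd} :
    ¬ ∃ t, St ins q0 qf t .ka ∧ St ins q0 qf t (tm ((qf, fun _ => 0) :: C) h) := by
  rintro ⟨t, s1, s2⟩
  simp only [tm] at s2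
  rcases pred_ka s1 with rfl | rfl | ⟨b, rfl⟩
  · rcases s2 with ⟨s2⟩; cases s2
  · rcases s2 with ⟨s2⟩; cases s2
  · rcases s2 with ⟨s2⟩
    generalize hk : (T.c qf (fun j => num 0) (tm C h) : T Q N) = k at s2
    cases s2 with
    | S1 => cases hk
    | S2 _ _ hn =>
      subst hk
      rcases hn with (h | ⟨_, h⟩) | h | ⟨_, _, _, h, h'⟩ | ⟨_, _, _, _, h, h'⟩
      · cases h
      · cases h
      · cases h
      · simp only [T.c.injEq] at h
        exact h' h.1.symm
      · simp only [T.c.injEq] at h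
        rw [← h.2.1] at h'
        cases h'
    | S3 => cases hk

end Pool.Agent.Q227.OR
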